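import Pool.Agent.Q67.TB.Lar
import Pool.Agent.Q67.TP.Closed

/-!
# The Casimir class: comparison of tensors and classes
-/

set_option autoImplicit false
set_option linter.unusedSectionVars false

open CategoryTheory AlgebraicGeometry

universe u v

namespace Pool.Agent.Q67.TG

open Pool.Agent.H914 Pool.Agent.H914.VarClass Pool.Agent.H914.VarClass.Obj
  Pool.Agent.H914.WeilCohomology
open Pool.Agent.Y133.Half hiding prj extOp_xp
open Pool.Agent.Q67.Det Pool.Agent.Q67.TK Pool.Agent.Q67.TB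
open scoped Matrix

variable {k : Type u} [Field k] {𝒱 : VarClass k} {ops : CycleOps 𝒱}
  {W : WeilCohomology.{u, v} ops} {X Y Z : 𝒱.Obj}

section corr

variable {B : Type} [Fintype B] [DecidableEq B] {v : Module.Basis B W.K (W.H X)} {d : B → ℕ}

lemma mul_par {M N : Matrix B B W.K} (hM : ∀ a b, d a % 2 ≠ d b % 2 → M a b = 0)
    (hN : ∀ a b, d a % 2 ≠ d b % 2 → N a b = 0) (a b : B) (h : d a % 2 ≠ d b % 2) :
    (M * N) a b = 0 := by
  rw [Matrix.mul_apply]
  refine Finset.sum_eq_zero fun c _ => ?_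
  by_cases hac : d a % 2 = d c % 2
  · rw [hN c b (fun h' => h (hac.trans h')), mul_zero]
  · rw [hM a c hac, zero_mul]

/-- The class on `X × X` given by a matrix. -/
noncomputable def cM2 (v : Module.Basis B W.K (W.H X)) (M : Matrix B B W.K) : W.H (X.prod X) :=
  PP v (Det.prj X 1) (t2 M)

lemma corr_t2 (hd : ∀ b, v b ∈ W.gr X (d b)) {M : Matrix B B W.K}
    (hM : ∀ a b, d a % 2 ≠ d b % 2 → M a b = 0) (e f : B) :
    W.tr X (W.corr (cM2 v M) (v e) * v f) =
      ∑ a, (-1 : W.K) ^ (d e) * W.tr X (v a * v e) * (M * qM v 1) a f := by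
  obtain ⟨c, hc0⟩ : ∃ c : W.H (X.prod X), c = cM2 v M := ⟨_, rfl⟩
  have hc : c = ∑ a, ∑ b, M a b • (xp W (v a) (v b) : W.H (X.prod X)) :=
    hc0.trans (PP_two M)
  have hNv : W.corr c (v e) =
      ∑ a, ∑ b, ((-1 : W.K) ^ (d e) * (M a b * W.tr X (v a * v e))) • v b := by
    have h0 : W.corr c (v e) = ∑ a, ∑ b, M a b • W.corr (xp W (v a) (v b)) (v e) := by
      rw [hc]
      have h1 : ∀ y : W.H (X.prod X), W.corr y (v e) = (corrL W X X y) (v e) := fun y => rfl
      rw [h1, map_sum, LinearMap.sum_apply]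
      refine Finset.sum_congr rfl fun a _ => ?_
      rw [map_sum, LinearMap.sum_apply]
      refine Finset.sum_congr rfl fun b _ => ?_
      rw [map_smul, LinearMap.smul_apply]
      rfl
    rw [h0]
    refine Finset.sum_congr rfl fun a _ => Finset.sum_congr rfl fun b _ => ?_
    rw [corr_xp (W := W) (v a) (PH.of (hd b)) (PH.of (hd e)), smul_smul]
    by_cases hab : d a % 2 = d b % 2
    · by_cases hae : d a % 2 = d e % 2
      · have h2 : (-1 : W.K) ^ (d b * d e) = (-1 : W.K) ^ (d e) := by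
          apply neg_pow_congr
          rw [Nat.mul_mod, ← hab, hae]
          rcases Nat.mod_two_eq_zero_or_one (d e) with h | h <;> simp [h]
        rw [h2]
        congr 1
        ring
      · have h2 : W.tr X (v a * v e) = 0 :=
          PH.tr_odd (PH.mul (PH.of (hd a)) (PH.of (hd e))) (by omega)
        rw [h2]
        simp
    · rw [hM a b hab]
      simp
  rw [← hc0]
  change W.tr X (W.corr c (v e) * v f) = _
  rw [hNv, Finset.sum_mul, map_sum]
  refine Finset.sum_congr rfl fun a _ => ?_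
  rw [Finset.sum_mul, map_sum, Matrix.mul_apply, Finset.mul_sum]
  refine Finset.sum_congr rfl fun b _ => ?_
  rw [smul_mul_assoc, map_smul, smul_eq_mul]
  simp only [qM, Module.End.one_apply]
  ring

/-- The correspondence given by the tensor of an operator. -/
lemma corr_op (hd : ∀ b, v b ∈ W.gr X (d b)) {φ : Module.End W.K (W.H X)} (hφ : Ev W φ)
    {κ : Matrix B B W.K} (hκ : qM v (1 : Module.End W.K (W.H X)) * κ = 1) (x y : W.H X) :
    W.tr X (W.corr (cM2 v (mt v φ * κ)) x * y) = W.tr X (x * φ y) := by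
  have hκ' : κ * qM v (1 : Module.End W.K (W.H X)) = 1 := mul_eq_one_comm.1 hκ
  have hone : Ev W (1 : Module.End W.K (W.H X)) := fun _ _ h => h
  -- the parity of the tensor
  have hpq : ∀ a b, d a % 2 ≠ d b % 2 → qM v (1 : Module.End W.K (W.H X)) a b = 0 :=
    fun a b h => qM_par hd hone h
  have hpκ : ∀ a b, d a % 2 ≠ d b % 2 → κ a b = 0 := fun a b h => kap_par hpq hκ h
  have hpφ : ∀ a b, d a % 2 ≠ d b % 2 → qM v φ a b = 0 := fun a b h => qM_par hd hφ h
  have hqφ : qM v (1 : Module.End W.K (W.H X)) * mt v φ = qM v φ := by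
    ext a b
    rw [Matrix.mul_apply]
    simp only [qM, Module.End.one_apply]
    conv_rhs => rw [mt_spec v φ b, Finset.mul_sum, map_sum]
    refine Finset.sum_congr rfl fun c _ => ?_
    rw [mul_smul_comm, map_smul, smul_eq_mul, mul_comm]
  have hm : mt v φ = κ * qM v φ := by
    rw [← hqφ, ← Matrix.mul_assoc, hκ', Matrix.one_mul]
  have hpM : ∀ a b, d a % 2 ≠ d b % 2 → (mt v φ * κ) a b = 0 := by
    rw [hm]
    exact fun a b h => mul_par (fun a b h => mul_par hpκ hpφ a b h) hpκ a b h
  have key : ∀ e f, W.tr X (W.corr (cM2 v (mt v φ * κ)) (v e) * v f) =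
      W.tr X (v e * φ (v f)) := by
    intro e f
    rw [corr_t2 hd hpM, Matrix.mul_assoc, hκ', Matrix.mul_one]
    have h1 : W.tr X (φ (v f) * v e) = ∑ a, W.tr X (v a * v e) * mt v φ a f := by
      conv_lhs => rw [mt_spec v φ f, Finset.sum_mul, map_sum]
      refine Finset.sum_congr rfl fun a _ => ?_
      rw [smul_mul_assoc, map_smul, smul_eq_mul, mul_comm]
    have h2 : ∑ a, (-1 : W.K) ^ (d e) * W.tr X (v a * v e) * mt v φ a f =
        (-1 : W.K) ^ (d e) * W.tr X (φ (v f) * v e) := by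
      rw [h1, Finset.mul_sum]
      refine Finset.sum_congr rfl fun a _ => ?_
      ring
    rw [h2]
    by_cases hef : d e % 2 = d f % 2
    · rw [PH.comm (hφ _ _ (PH.of (hd f))) (PH.of (hd e)), map_smul, smul_eq_mul, ← mul_assoc,
        ← pow_add]
      have h3 : Even (d e + d f * d e) := by
        rw [Nat.even_iff, Nat.add_mod, Nat.mul_mod, ← hef]
        rcases Nat.mod_two_eq_zero_or_one (d e) with h | h <;> simp [h]
      rw [h3.neg_one_pow, one_mul]
    · rw [PH.tr_odd (PH.mul (hφ _ _ (PH.of (hd f))) (PH.of (hd e))) (by omega),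
        PH.tr_odd (PH.mul (PH.of (hd e)) (hφ _ _ (PH.of (hd f)))) (by omega), mul_zero]
  rw [← v.sum_repr x, ← v.sum_repr y]
  simp only [map_sum, map_smul, Finset.sum_mul_sum, smul_mul_smul_comm, key]

/-- The class of an operator which is skew-symmetric. -/
lemma corr_skew (hd : ∀ b, v b ∈ W.gr X (d b)) {φ : Module.End W.K (W.H X)} (hφ : Ev W φ)
    (hs : ∀ x y, W.tr X (φ x * y) = -W.tr X (x * φ y))
    {κ : Matrix B B W.K} (hκ : qM v (1 : Module.End W.K (W.H X)) * κ = 1) {z : W.H (X.prod X)}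
    (hz : W.corr z = φ) : z = -cM2 v (mt v φ * κ) := by
  apply Det.corr_ext
  rw [hz]
  have h1 : W.corr (-cM2 v (mt v φ * κ)) = -W.corr (cM2 v (mt v φ * κ)) :=
    map_neg (corrL W X X) _
  rw [h1]
  apply LinearMap.ext
  intro x
  apply W.tr_ext
  intro y
  rw [LinearMap.neg_apply, neg_mul, map_neg]
  refine Eq.trans (hs x y) ?_
  rw [← corr_op hd hφ hκ]

end corr

section four

variable {B : Type} [Fintype B] [DecidableEq B] {v : Module.Basis B W.K (W.H X)}

/-- The four projections of the product of two copies of `X × X`. -/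
noncomputable def pr4 (X : 𝒱.Obj) : Fin (2 + 2) → ((X.prod X).prod (X.prod X) ⟶ X) :=
  Fin.append (fun k : Fin 2 => (fst (X.prod X) (X.prod X) ≫
      (show (X.prod X ⟶ X) from Det.prj X 1 k) : (X.prod X).prod (X.prod X) ⟶ X))
    (fun k : Fin 2 => (snd (X.prod X) (X.prod X) ≫
      (show (X.prod X ⟶ X) from Det.prj X 1 k) : (X.prod X).prod (X.prod X) ⟶ X))

lemma PP_pr4 (F G : (Fin 2 → B) → W.K) :
    PP v (pr4 X) (tp F G) = (xp W (show W.H (X.prod X) from PP v (Det.prj X 1) F)
      (show W.H (X.prod X) from PP v (Det.prj X 1) G) :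
        W.H ((X.prod X).prod (X.prod X))) := by
  have e1 : (fun k : Fin 2 => pr4 X (Fin.castAdd 2 k)) = fun k : Fin 2 =>
      (fst (X.prod X) (X.prod X) ≫ (show (X.prod X ⟶ X) from Det.prj X 1 k) :
        (X.prod X).prod (X.prod X) ⟶ X) := by
    funext k; rw [pr4, Fin.append_left]
  have e2 : (fun k : Fin 2 => pr4 X (Fin.natAdd 2 k)) = fun k : Fin 2 =>
      (snd (X.prod X) (X.prod X) ≫ (show (X.prod X ⟶ X) from Det.prj X 1 k) :
        (X.prod X).prod (X.prod X) ⟶ X) := by
    funext k; rw [pr4, Fin.append_right]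
  rw [PP_tp (m := 2) (n := 2) (pr4 X) F G, e1, e2, ← map_PP, ← map_PP]
  rfl

variable {S : Sys W}

/-- A tensor belongs to the system if and only if its class on the product of two copies of
`X × X` does. -/
lemma mem_pr4 {F : (Fin (2 + 2) → B) → W.K} :
    F ∈ Cs S v (2 + 2) ↔ PP v (pr4 X) F ∈ S.C ((X.prod X).prod (X.prod X)) := by
  constructor
  · intro h; exact h _ _
  · intro h Z f
    set g : Z ⟶ (X.prod X).prod (X.prod X) := Obj.lift
      (show Z ⟶ X.prod X from tup 1 (fun k : Fin (1 + 1) => f (Fin.castAdd 2 k)))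
      (show Z ⟶ X.prod X from tup 1 (fun k : Fin (1 + 1) => f (Fin.natAdd 2 k))) with hg
    have h1 : (fun k => g ≫ pr4 X k) = f := by
      funext k
      refine Fin.addCases (fun j => ?_) (fun j => ?_) k
      · rw [pr4, Fin.append_left]
        have h2 : g ≫ (fst (X.prod X) (X.prod X) ≫ (show (X.prod X ⟶ X) from Det.prj X 1 j)) =
            (show Z ⟶ X.prod X from tup 1 (fun k : Fin (1 + 1) => f (Fin.castAdd 2 k))) ≫
              (show (X.prod X ⟶ X) from Det.prj X 1 j) := Obj.lift_fst_assoc _ _ _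
        exact h2.trans (tup_prj (m := 1) (fun k : Fin (1 + 1) => f (Fin.castAdd 2 k)) j)
      · rw [pr4, Fin.append_right]
        have h2 : g ≫ (snd (X.prod X) (X.prod X) ≫ (show (X.prod X ⟶ X) from Det.prj X 1 j)) =
            (show Z ⟶ X.prod X from tup 1 (fun k : Fin (1 + 1) => f (Fin.natAdd 2 k))) ≫
              (show (X.prod X ⟶ X) from Det.prj X 1 j) := by
          rw [← Category.assoc, hg, Obj.lift_snd]
        exact h2.trans (tup_prj (m := 1) (fun k : Fin (1 + 1) => f (Fin.natAdd 2 k)) j)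
    have h2 := S.map g h
    rw [map_PP, h1] at h2
    exact h2

end four

end Pool.Agent.Q67.TG
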