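import Pool.Agent.Q67.TB.DefsP
import Pool.Agent.Q67.TA.Defs

/-!
# The Casimir class of a direct summand with symmetric Hodge endomorphisms: definitions
-/

open CategoryTheory AlgebraicGeometry

universe u

namespace Pool.Agent.Q67.TB.S

open Pool.Agent.H914 Pool.Agent.H914.VarClass Pool.Agent.H914.VarClass.Obj
  Pool.Agent.H914.WeilCohomology
open Pool.Agent.Y121.AHS hiding Maps
open Pool.Agent.Q67.TP.S

variable {k : Type u} [Field k] {𝒱 : VarClass k} {ops : CycleOps 𝒱} {T : HodgeTheory ops}

/-- All endomorphisms of `π H(X)` given by elements of `R` are symmetric for the form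
`tr (x · u y)`. -/
def SymmetricEnds (R : Classes T) (X : 𝒱.Obj) (u π : ROp T X) : Prop :=
  ∀ φ, OnSummand R X π φ → ∀ x y, form u (φ x) y = form u x (φ y)

/-- The class `c` on `X^4` decides whether the index `N` of the classes in `R` over the classes
in `C` on the powers of `X` is finite: if all endomorphisms of `π H(X)` given by `R` are symmetric;
if they are given by `C` and the centre of their algebra has no nonzero skew-symmetric element; and
in general together with a condition on operators. -/
structure OneDecides (R C : Classes T) (X : 𝒱.Obj) (u π : ROp T X) (i : ℕ) (c : RH T (pow4 X))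
    (N : ℕ∞) : Prop where
  symmetric : SymmetricEnds R X u π → (N ≠ ⊤ ↔ InSpanOf C c)
  square : InCodim R C (X.prod X) i → NoSkewCentre C X u π → (N ≠ ⊤ ↔ InSpanOf C c)
  general : N ≠ ⊤ ↔ InSpanOf C c ∧ ∀ A ∈ lie C X, IsOp R X A → A ∈ lie R X

/-- The index `N` of the Hodge classes over the classes in `C` on the powers of `X`, and the one
class on `X^4` which decides whether it is finite. -/
structure CasimirLaw (C : Classes T) (X : 𝒱.Obj) (u π : ROp T X) (i : ℕ) (N : ℕ∞)
    (c : RH T (pow4 X)) : Prop where
  law : Law (hodge T) C X N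
  casimir : IsCasimirOf (hodge T) X u π c
  unique : ∀ c', IsCasimirOf (hodge T) X u π c' → c' = c
  isHodge : IsHodge T (pow4 X) (2 * i) c
  decides : OneDecides (hodge T) C X u π i c N

end Pool.Agent.Q67.TB.S
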