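import Pool.Agent.Q67.TP.Defs

/-!
# The Casimir class and the de Rham-Betti classes: definitions
-/

open CategoryTheory AlgebraicGeometry

universe u

namespace Pool.Agent.Q67.TB.O

open Pool.Agent.H914 Pool.Agent.H914.VarClass Pool.Agent.H914.VarClass.Obj
open Pool.Agent.Y121.AHS hiding Maps
open Pool.Agent.Q67.TP.S

section op

variable {L H G E : Type} [Field L] [AddCommGroup H] [Module L H] [AddCommGroup G]
  [AddCommGroup E]

/-- The value `A x`. -/
def ap (A : Op L H) (x : H) : H := A x

/-- The composition `A ∘ B`. -/
def cmp (A B : Op L H) : Op L H := A * B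

/-- The families are dual to each other for the pairing `b`. -/
def Dual {A B : Type} (b : A → B → L) {n : ℕ} (e : Fin n → A) (e' : Fin n → B) : Prop :=
  ∀ i j, b (e i) (e' j) = if i = j then 1 else 0

/-- `c` is the sum `∑ (∑ e i (w a) × w' a) × (∑ e' i (w a) × w' a)`, where the operators `e i` form a
basis of the space `P` of operators and the operators `e' i` the dual basis for the form
`(A, B) ↦ tr (π A B)`, and the elements `w a` form a basis of the image of the projector `π` and the
elements `w' a` the dual basis for the form `b`. -/
def IsCas (P : Set (Op L H)) (b : H → H → L) (π : Op L H) (x : H → H → G) (y : G → G → E)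
    (c : E) : Prop :=
  ∃ (n : ℕ) (e e' : Fin n → Op L H) (r : ℕ) (w w' : Fin r → H),
    (∀ i, e i ∈ P ∧ e' i ∈ P) ∧ (∀ A ∈ P, A ∈ Submodule.span L (Set.range e)) ∧
      Dual (fun A B => LinearMap.trace L H (cmp (cmp π A) B)) e e' ∧
      (∀ a, ap π (w a) = w a ∧ ap π (w' a) = w' a) ∧
      (∀ x, ap π x ∈ Submodule.span L (Set.range w)) ∧
      Dual b w' w ∧ c = ∑ i, y (∑ a, x (ap (e i) (w a)) (w' a)) (∑ a, x (ap (e' i) (w a)) (w' a))

/-- `π` is a projector which is symmetric for the form `b`, the elements of its image have the
property `P`, and the only subspace which contains the image of `π` and the set `S` and is closed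
under the product `m` is the whole space. -/
def IsSummand (b : H → H → L) (P : H → Prop) (m : H → H → H) (S : Set H) (π : Op L H) : Prop :=
  cmp π π = π ∧ (∀ x y, b (ap π x) y = b x (ap π y)) ∧ (∀ x, P (ap π x)) ∧
    ∀ U : Submodule L H, S ∪ Set.range (ap π) ⊆ U → Stable m (U : Set H) → U = ⊤

/-- `φ` is an endomorphism of the image of `π` with the property `P`. -/
def On (P : Op L H → Prop) (π φ : Op L H) : Prop := P φ ∧ cmp π φ = φ ∧ cmp φ π = φ

/-- All operators with the property `P` are symmetric for the form `b`. -/
def AllSymmetric (b : H → H → L) (P : Op L H → Prop) : Prop :=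
  ∀ φ, P φ → ∀ x y, b (ap φ x) y = b x (ap φ y)

/-- The form `t (x · u y)`. -/
def formOf (m : H → H → H) (t : H → L) (u : Op L H) (x y : H) : L := t (m x (ap u y))

end op

variable {k : Type u} [Field k] {𝒱 : VarClass k} {ops : CycleOps 𝒱} {T : HodgeTheory ops}

/-- The product `X^4` of two copies of `X × X`. -/
noncomputable abbrev pow4 (X : 𝒱.Obj) : 𝒱.Obj := (X.prod X).prod (X.prod X)

/-- The form `tr (x · u y)` given by the operator `u`. -/
noncomputable def form {X : 𝒱.Obj} (u : ROp T X) : RH T X → RH T X → Co T := formOf mu trace u

/-- `(X, π)` is a direct summand of degree `i` of the cohomology of `X` which generates this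
cohomology over `C`: `π` is a projector given by elements of `C`, symmetric for the form
`tr (x · u y)`, its image `π H(X)` consists of classes of degree `i`, and the algebra `H(X)` is
generated by `π H(X)` and the elements of `C` on `X`. -/
def Generating (C : Classes T) (X : 𝒱.Obj) (u π : ROp T X) (i : ℕ) : Prop :=
  IsOp C X π ∧ IsSummand (form u) (RDeg i) mu (C X) π

/-- `c` is the Casimir class on `X^4`, for the representation `π H(X)`, of the Lie algebra of the
operators which kill the classes in `R` on all powers of `X`; the bases are dual to each other for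
the trace form of the representation `π H(X)` and for the form `tr (x · u y)`. -/
def IsCasimir (R : Classes T) (X : 𝒱.Obj) (u π : ROp T X) (c : RH T (pow4 X)) : Prop :=
  IsCas (lie R X) (form u) π cross cross c

/-- The transcendence degree `t` is at most `d + 1`, and if it is equal to `d + 1`, `P` holds. -/
def Bound (t : Cardinal.{0}) (d : ℕ) (P : Prop) : Prop := t ≤ (d + 1 : ℕ) ∧ (t = (d + 1 : ℕ) → P)

/-- All Hodge classes on all powers of `X` are de Rham-Betti classes if and only if this is the case
for the class `c` on `X^4`. -/
def DecidedBy (S : Theory ops) (X : 𝒱.Obj) (c : RH S.T (pow4 X)) : Prop :=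
  Sub (hodge S.T) (drb S) X ↔ c ∈ drb S (pow4 X)

/-- The one class `c` on `X^4` decides whether all Hodge classes on all powers of `X` are de
Rham-Betti classes, if all Hodge endomorphisms of `π H(X)` are symmetric, and in general together
with a condition on operators. If they are, the transcendence degree of the periods is bounded by
the Hodge classes. -/
structure OneClass (S : Theory ops) (X : 𝒱.Obj) (u π : ROp S.T X) (i : ℕ)
    (c : RH S.T (pow4 X)) : Prop where
  casimir : ∀ z, IsCasimir (hodge S.T) X u π z ↔ z = c
  isHodge : IsHodge S.T (pow4 X) (2 * i) c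
  symmetric : AllSymmetric (form u) (On (IsOp (hodge S.T) X) π) → DecidedBy S X c
  general : (∀ A ∈ lie (meet (hodge S.T) (drb S)) X, IsOp (hodge S.T) X A → A ∈ lie (hodge S.T) X) →
    DecidedBy S X c
  trdeg : Sub (hodge S.T) (drb S) X →
    Bound (trdegOf (periods S X)) (lieDim (hodge S.T) X) (Sub (drb S) (hodge S.T) X)

end Pool.Agent.Q67.TB.O
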