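import Pool.Agent.Q67.TP.LDefs

/-!
# The Casimir class of a direct summand of the cohomology: definitions
-/

open CategoryTheory AlgebraicGeometry

universe u

namespace Pool.Agent.Q67.TB.S

open Pool.Agent.H914 Pool.Agent.H914.VarClass Pool.Agent.H914.VarClass.Obj
  Pool.Agent.H914.WeilCohomology
open Pool.Agent.Y121.AHS hiding Maps
open Pool.Agent.Q67.TP.S

section op

variable {L H : Type} [Field L] [AddCommGroup H] [Module L H]

/-- The operators `e i` form a basis of the space `P` of operators and the operators `e' i` form
the dual basis of `P` for the form `(A, B) ↦ tr (π A B)`. -/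
structure DualOps (P : Set (Op L H)) (π : Op L H) {n : ℕ} (e e' : Fin n → Op L H) : Prop where
  mem : ∀ i, e i ∈ P ∧ e' i ∈ P
  span : ∀ A ∈ P, A ∈ Submodule.span L (Set.range e)
  dual : ∀ i j, LinearMap.trace L H (π * e i * e' j) = if i = j then 1 else 0

/-- The elements `w a` form a basis of the image of the projector `π` and the elements `w' a` form
a basis of the image of `π` with `b (w' a) (w a) = 1` and `b (w' a) (w c) = 0` for `a ≠ c`. -/
structure DualVecs (b : H → H → L) (π : Op L H) {r : ℕ} (w w' : Fin r → H) : Prop where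
  mem : ∀ a, π (w a) = w a ∧ π (w' a) = w' a
  span : ∀ x, π x ∈ Submodule.span L (Set.range w)
  dual : ∀ a c, b (w' a) (w c) = if a = c then 1 else 0

end op

variable {k : Type u} [Field k] {𝒱 : VarClass k} {ops : CycleOps 𝒱} {T : HodgeTheory ops}

/-- The product `X^4` of two copies of `X × X`. -/
noncomputable abbrev pow4 (X : 𝒱.Obj) : 𝒱.Obj := (X.prod X).prod (X.prod X)

/-- The form `tr (x · u y)` given by the polarisation `u`. -/
noncomputable def form {X : 𝒱.Obj} (u : ROp T X) (x y : RH T X) : Co T := trace (mu x (u y))

/-- `(X, π)` is a direct summand of degree `i` of the cohomology of `X` which generates this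
cohomology over `C`: `π` is a projector given by elements of `C`, its image `π H(X)` consists of
classes of degree `i`, it is symmetric for the form `tr (x · u y)`, and the algebra `H(X)` is
generated by `π H(X)` and the elements of `C` on `X`. -/
structure Generating (C : Classes T) (X : 𝒱.Obj) (u π : ROp T X) (i : ℕ) : Prop where
  op : IsOp C X π
  idem : π * π = π
  deg : ∀ x, RDeg i (π x)
  symm : ∀ x y, form u (π x) y = form u x (π y)
  gen : ∀ U : Submodule (Co T) (RH T X), (∀ x, π x ∈ U) → (∀ c ∈ C X, c ∈ U) →
    (∀ a ∈ U, ∀ b ∈ U, mu a b ∈ U) → U = ⊤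

/-- The class `∑ e (w a) × w' a` on `X × X` of the operator `e`. -/
noncomputable def classOf {X : 𝒱.Obj} {r : ℕ} (w w' : Fin r → RH T X) (e : ROp T X) :
    RH T (X.prod X) := ∑ a, cross (e (w a)) (w' a)

/-- `c` is the Casimir class on `X^4`, for the representation `π H(X)`, of the Lie algebra of the
operators which kill the classes in `R` on all powers of `X`: it is the sum
`∑ e i (w a) × w' a × e' i (w b) × w' b` for bases `e`, `e'` of the Lie algebra which are dual to
each other for the trace form of the representation `π H(X)` and for bases `w`, `w'` of `π H(X)`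
which are dual to each other for the form `tr (x · u y)`. -/
def IsCasimirOf (R : Classes T) (X : 𝒱.Obj) (u π : ROp T X) (c : RH T (pow4 X)) : Prop :=
  ∃ (n : ℕ) (e e' : Fin n → ROp T X) (r : ℕ) (w w' : Fin r → RH T X),
    DualOps (lie R X) π e e' ∧ DualVecs (form u) π w w' ∧
      c = ∑ i, cross (classOf w w' (e i)) (classOf w w' (e' i))

/-- The class `c` is a linear combination of classes in `C`. -/
def InSpanOf (C : Classes T) {Z : 𝒱.Obj} (c : RH T Z) : Prop := c ∈ Submodule.span (Co T) (C Z)

/-- All classes in `R` of degree `2 i` on `Z` are linear combinations of classes in `C`. -/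
def InCodim (R C : Classes T) (Z : 𝒱.Obj) (i : ℕ) : Prop :=
  ∀ z ∈ R Z, RDeg (2 * i) z → InSpanOf C z

/-- `φ` belongs to the algebra `E` of the endomorphisms of `π H(X)` given by elements of `C`. -/
def OnSummand (C : Classes T) (X : 𝒱.Obj) (π φ : ROp T X) : Prop :=
  IsOp C X φ ∧ π * φ = φ ∧ φ * π = φ

/-- No nonzero element of the centre of the algebra `E` of the endomorphisms of `π H(X)` given by
elements of `C` is skew-symmetric for the form `tr (x · u y)`. -/
def NoSkewCentre (C : Classes T) (X : 𝒱.Obj) (u π : ROp T X) : Prop :=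
  NoSkew (fun x y => mu x (u y)) trace (CentralIn (OnSummand C X π))

/-- The class `c` on `X^4` decides whether the index `N` of the classes in `R` over the classes
in `C` on the powers of `X` is finite. -/
structure Decides (R C : Classes T) (X : 𝒱.Obj) (u π : ROp T X) (i : ℕ) (c : RH T (pow4 X))
    (N : ℕ∞) : Prop where
  criterion : N ≠ ⊤ ↔ InSpanOf C c ∧ ∀ A ∈ lie C X, IsOp R X A → A ∈ lie R X
  one : InCodim R C (X.prod X) i → NoSkewCentre C X u π → (N ≠ ⊤ ↔ InSpanOf C c)
  enough : InCodim R C (X.prod X) i → NoSkewCentre C X u π → InCodim R C (pow4 X) (2 * i) → N ≠ ⊤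

end Pool.Agent.Q67.TB.S
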