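import Pool.Agent.Q67.TB.FinalP
import Pool.Agent.Q67.TB.DefsK

/-!
# The Casimir class of a direct summand with symmetric Hodge endomorphisms
-/

set_option autoImplicit false
set_option linter.unusedSectionVars false

open CategoryTheory AlgebraicGeometry TensorProduct Filter Topology

universe u v w

namespace Pool.Agent.Q67.TB.S

open Pool.Agent.H914 Pool.Agent.H914.VarClass Pool.Agent.H914.VarClass.Obj
  Pool.Agent.H914.WeilCohomology
open Pool.Agent.Y133.Half hiding prj extOp_xp tateDim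
open Pool.Agent.Q67.Det Pool.Agent.Q67.TK
open Pool.Agent.Q67.TG
open Pool.Agent.Y121 Pool.Agent.Y121.AHS
open Pool.Agent.Q67.TP Pool.Agent.Q67.TP.S Pool.Agent.Q67.TA.S

variable {k : Type u} [Field k] {𝒱 : VarClass k} {ops : CycleOps 𝒱} {T : HodgeTheory ops}
  {X Y Z : 𝒱.Obj} {R C : Classes T} {Q Q' : ClassPred (VV T)}

/-- The form given by the polarisation is nondegenerate. -/
lemma form_nondeg {S : Sys (toH T).W} (P : PolData (toH T) S X) {z : (toH T).W.H X}
    (hz : ∀ y, (toH T).W.tr X (z * P.uu y) = 0) : z = 0 := by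
  obtain ⟨n, v, d, hd⟩ := exists_homog_basis (toH T).W X
  have h6 : Matrix.vecMul (fun b => v.repr z b) (qM v P.uu) = 0 := by
    funext b
    rw [Matrix.vecMul, dotProduct, Pi.zero_apply]
    have h7 : (toH T).W.tr X (z * P.uu (v b)) = ∑ a, v.repr z a * qM v P.uu a b := by
      conv_lhs => rw [← v.sum_repr z, Finset.sum_mul, map_sum]
      refine Finset.sum_congr rfl fun a _ => ?_
      rw [smul_mul_assoc, map_smul, smul_eq_mul, qM]
    rw [← h7, hz]
  have h8 : (fun b => v.repr z b) = 0 := by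
    have := congrArg (fun w => Matrix.vecMul w (qM v P.uu)⁻¹) h6
    simpa [Matrix.vecMul_vecMul, P.q_kap] using this
  apply v.repr.injective
  ext b
  simpa using congrFun h8 b

/-- If the endomorphisms given by the larger system are symmetric, the operators of this system in
the Lie algebra of the smaller one vanish. -/
lemma symm_kill (hR : Rp R Q') (hC : Rp C Q)
    (hQ : ∀ {Z : 𝒱.Obj} {j : ℕ} {c : (VV T).H Z}, Q.P Z j c → Q'.P Z j c)
    {u π : ROp T X} {i : ℕ} (G : Generating C X u π i)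
    (P : PolData (toH T) Q.sys X) (hPu : P.uu = oo u) (hs : SymmetricEnds R X u π)
    {A : ROp T X} (hA : A ∈ lie C X) (hAR : IsOp R X A) : A ∈ lie R X := by
  have := charZero_K (toH T)
  have H := summ_of hC G P hPu
  have hA' : KillsAll Q.sys X (oo A) := hC.lie_iff.1 hA
  have hcomm : oo π * oo A = oo A * oo π := H.comm hA'
  have hfun : ∀ {f g : Module.End (toH T).W.K ((toH T).W.H X)}, f = g → ∀ x, f x = g x :=
    fun h x => by rw [h]
  have hleQR : ∀ Z, Q.sys.C Z ≤ Q'.sys.C Z := fun Z => ClassPred.sys_le hQ Z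
  have hπR : oo π ∈ Q'.sys.Op X X := by
    obtain ⟨z, hz, h3⟩ := Sys.mem_Op.1 H.op
    exact Sys.mem_Op.2 ⟨z, hleQR _ hz, h3⟩
  have hφR : oo π * oo A ∈ Q'.sys.Op X X := Sys.Op.comp hπR (hR.op_iff.1 hAR)
  have hφ : OnSummand R X π (uu (oo π * oo A)) :=
    ⟨hR.op_iff.2 hφR, by
      change oo π * (oo π * oo A) = oo π * oo A
      rw [← mul_assoc, H.idem], by
      change (oo π * oo A) * oo π = oo π * oo A
      rw [mul_assoc, ← hcomm, ← mul_assoc, H.idem]⟩
  have hsym := hs _ hφ
  have hsk : ∀ x y : (toH T).W.H X, (toH T).W.tr X ((oo π * oo A) x * P.uu y) =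
      -(toH T).W.tr X (x * P.uu ((oo π * oo A) y)) := by
    intro x y
    have e1 : (oo π * oo A) x = oo π (oo A x) := rfl
    have e2 : P.uu ((oo π * oo A) y) = oo A (P.uu (oo π y)) := by
      have e3 : (oo π * oo A) y = oo A (oo π y) := hfun hcomm y
      rw [e3]
      exact (hfun (P.nd.comm_op hA' P.mem) (oo π y)).symm
    rw [e1, e2, H.symm]
    exact P.nd.tr_skew hA' _ _
  have hzero : ∀ x y : (toH T).W.H X, (toH T).W.tr X ((oo π * oo A) x * P.uu y) = 0 := by
    intro x y
    have h1 : (toH T).W.tr X ((oo π * oo A) x * P.uu y) =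
        (toH T).W.tr X (x * P.uu ((oo π * oo A) y)) := by
      have h2 := hsym x y
      rw [hPu]
      exact h2
    have h3 := hsk x y
    rw [← h1] at h3
    exact self_eq_neg.1 h3
  have h0 : oo π * oo A = 0 := by
    refine LinearMap.ext fun x => ?_
    exact form_nondeg P (hzero x)
  have h00 : oo A = 0 := H.inj (oo A) hA' h0
  refine (hR.lie_iff (A := A)).2 ?_
  intro m c hc
  have h10 : (0 : Module.End (toH T).W.K ((toH T).W.H (pw X m))) =
      derOp (0 : Module.End (toH T).W.K ((toH T).W.H X)) m := by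
    refine IsDer.eq ?_
    intro x
    rw [LinearMap.zero_apply]
    refine (Finset.sum_eq_zero fun i _ => ?_).symm
    exact ten_zero_of (i := i) (Function.update_self i _ x)
  rw [h00, ← h10, LinearMap.zero_apply]

/-- **The law for the Hodge classes over a system of Hodge classes and the one class on `X^4`.** -/
theorem casimir_law (hC : IsSys T C) {u π : ROp T X} {i : ℕ} (h : PolarisedBy C X u)
    (ho : OddIn C X) (G : Generating C X u π i) [Nontrivial (RH T X)] :
    ∃ N c, CasimirLaw C X u π i N c := by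
  have hQ : ∀ {Z : 𝒱.Obj} {j : ℕ} {c : (VV T).H Z}, (sysOf hC).P Z j c →
      (AH.hodgePred (toH T)).P Z j c := sys_hodge hC
  have hCr := rp_sys hC
  obtain ⟨N, hN, c, h1, h2, h3, h4⟩ := law_casimirOf hCr hQ h ho G
  refine ⟨N, c, hN, h1, h2, h3, ⟨fun hs => ?_, h4.one, h4.criterion⟩⟩
  refine h4.criterion.trans ⟨fun h => h.1, fun h5 => ⟨h5, fun A hA hAR => ?_⟩⟩
  exact symm_kill rp_hodge hCr hQ G (polQ hCr hQ h ho) rfl hs hA hAR

end Pool.Agent.Q67.TB.S
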