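import Pool.Agent.Q67.TB.FinalK
import Pool.Agent.Q67.TB.DefsO
import Pool.Agent.Q67.TP.Final

/-!
# The Casimir class and the de Rham-Betti classes
-/

set_option autoImplicit false
set_option linter.unusedSectionVars false

open CategoryTheory AlgebraicGeometry TensorProduct Filter Topology

universe u v w

namespace Pool.Agent.Q67.TB.O

open Pool.Agent.H914 Pool.Agent.H914.VarClass Pool.Agent.H914.VarClass.Obj
  Pool.Agent.H914.WeilCohomology
open Pool.Agent.Y133.Half hiding prj extOp_xp tateDim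
open Pool.Agent.Q67.Det Pool.Agent.Q67.TK
open Pool.Agent.Q67.TG
open Pool.Agent.Y121 Pool.Agent.Y121.AHS
open Pool.Agent.Q67.TP Pool.Agent.Q67.TP.S

variable {k : Type u} [Field k] {𝒱 : VarClass k} {ops : CycleOps 𝒱} {T : HodgeTheory ops}
  {X : 𝒱.Obj} {R C : Classes T}

lemma generating_conv {u π : ROp T X} {i : ℕ} (h : Generating C X u π i) :
    TB.S.Generating C X u π i :=
  ⟨h.1, h.2.1, h.2.2.2.1, fun x y => h.2.2.1 x y, fun U h1 h2 h3 => h.2.2.2.2 U
    (Set.union_subset h2 (Set.range_subset_iff.2 h1)) h3⟩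

lemma casimir_conv {u π : ROp T X} {c : RH T (pow4 X)} :
    IsCasimir R X u π c ↔ TB.S.IsCasimirOf R X u π c := by
  constructor
  · rintro ⟨n, e, e', r, w, w', h1, h2, h3, h4, h5, h6, hc⟩
    exact ⟨n, e, e', r, w, w', ⟨h1, h2, fun i j => h3 i j⟩, ⟨h4, h5, fun i j => h6 i j⟩, hc⟩
  · rintro ⟨n, e, e', r, w, w', D, E, hc⟩
    exact ⟨n, e, e', r, w, w', D.mem, D.span, fun i j => D.dual i j, E.mem, E.span,
      fun i j => E.dual i j, hc⟩

/-- **One class decides whether all Hodge classes are de Rham-Betti classes.** -/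
theorem one_class (S : Theory ops) (X : 𝒱.Obj) [Nontrivial (RH S.T X)] (u π : ROp S.T X) (i : ℕ)
    (hu : PolarisedBy (meet (hodge S.T) (drb S)) X u)
    (hπ : Generating (meet (hodge S.T) (drb S)) X u π i) : ∃ c, OneClass S X u π i c := by
  have hnt : Nontrivial ((toH S.T).W.H X) := ‹Nontrivial (RH S.T X)›
  have hB := (ex_both (S := S)).rp
  have hH := (ex_hodge (S := S)).rp
  have G := generating_conv hπ
  obtain ⟨N, hN⟩ := law_of (X := X) (ex_hodge (S := S)) hB (fun h => both_hodge h) (polB hu)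
  obtain ⟨c, h1, h2, h3, h4, h5⟩ := TB.S.casimirOf (X := X) (ex_hodge (S := S)) hB
    (fun h => both_hodge h) (fun h => h) (closed_hodge X) G (polB hu) rfl hN
  obtain ⟨N', h6⟩ := zeroOne_of (X := X) ex_hodge ex_both (fun h => both_hodge h) (polB hu)
  have h7 : Sub (hodge S.T) (drb S) X ↔ N ≠ ⊤ :=
    h6.one.symm.trans (h6.infinitesimal.trans hN.infinitesimal.symm)
  have hH4 : IsHodge S.T (pow4 X) (2 * i) c := by
    obtain ⟨j, hj⟩ := h3
    by_cases hc0 : c = 0
    · rw [hc0]
      exact ⟨Submodule.zero_mem _, (AH.hodgePred (toH S.T)).zero.2⟩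
    · have hj' : (2 * j : ℕ) = 2 * (2 * i) := by
        by_contra hne
        apply hc0
        have h8 := proj_same ((VV S.T).isInternal (pow4 X))
          (show c ∈ (VV S.T).gr (pow4 X) _ from h4)
        have h9 := proj_ne ((VV S.T).isInternal (pow4 X))
          (show c ∈ (VV S.T).gr (pow4 X) _ from hj.1) hne
        exact h8.symm.trans h9
      obtain rfl : j = 2 * i := by omega
      exact hj
  have h10 : TB.S.InSpanOf (meet (hodge S.T) (drb S)) c ↔ c ∈ drb S (pow4 X) := by
    constructor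
    · intro h
      have h11 := hB.span_iff.1 h
      have h12 := ClassPred.sp_proj (Q := Bp S) h11 (2 * i)
      rw [show (2 : ℕ) * (2 * i) = 2 * (2 * i) from rfl] at h12
      have h13 : (Bp S).P (pow4 X) (2 * i) (cc c) := by
        rwa [proj_same _ (show cc c ∈ (VV S.T).gr (pow4 X) (2 * (2 * i)) from h4)] at h12
      exact ((ex_both _ _).2 ⟨_, h13⟩).2
    · intro h
      exact Submodule.subset_span ⟨h3, h⟩
  refine ⟨c, fun z => ⟨fun hz => h2 z (casimir_conv.1 hz), fun hz => by
    rw [hz]; exact casimir_conv.2 h1⟩, hH4, fun hs => ?_, fun hg => ?_, fun hsub => ?_⟩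
  · rw [DecidedBy, h7, ← h10]
    refine h5.criterion.trans ⟨fun h => h.1, fun h8 => ⟨h8, fun A hA hAR => ?_⟩⟩
    exact TB.S.symm_kill hH hB (fun h => both_hodge h) G (polB hu) rfl
      (fun φ hφ => hs φ hφ) hA hAR
  · rw [DecidedBy, h7, ← h10]
    exact h5.criterion.trans ⟨fun h => h.1, fun h8 => ⟨h8, hg⟩⟩
  · have hle := trdeg_le (X := X) (ex_both (S := S)).rp (fun h => both_drb h)
    have heq := fun h => drb_sub_hodge (X := X) (ex_both (S := S)).rp (fun h => both_hodge h)
      (lie_of_trdeg ex_both.rp (fun h => both_drb h) h)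
    have h5 : lieDim (meet (hodge S.T) (drb S)) X = lieDim (hodge S.T) X := by
      have h6 : lie (meet (hodge S.T) (drb S)) X = lie (hodge S.T) X := by
        refine Set.Subset.antisymm ?_ ?_
        · intro A hA m D hD c hc
          exact hA m D hD c ⟨hc, hsub m hc⟩
        · intro A hA m D hD c hc
          exact hA m D hD c hc.1
      rw [lieDim, h6]
      rfl
    rw [h5] at hle heq
    exact ⟨hle, heq⟩

end Pool.Agent.Q67.TB.O
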