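import Pool.Agent.Q67.TB.MainP
import Pool.Agent.Q67.TB.DefsP
import Pool.Agent.Q67.TA.Sys

/-!
# The Casimir class of a direct summand of the cohomology: final forms
-/

set_option autoImplicit false
set_option linter.unusedSectionVars false

open CategoryTheory AlgebraicGeometry TensorProduct Filter Topology

universe u v w

namespace Pool.Agent.Q67.TG

open Pool.Agent.H914 Pool.Agent.H914.VarClass Pool.Agent.H914.VarClass.Obj
  Pool.Agent.H914.WeilCohomology
open Pool.Agent.Y133.Half hiding prj extOp_xp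
open Pool.Agent.Q67.Det Pool.Agent.Q67.TK
open Pool.Agent.Y121.AH
open Pool.Agent.Q67.TP

variable {k : Type u} [Field k] {𝒱 : VarClass k} {ops : CycleOps 𝒱}
  {W : WeilCohomology.{u, 0} ops} {X Y Z : 𝒱.Obj} {S : Sys W}

/-- Operators which kill the classes of a system are derivations. -/
lemma NDat.der_mul [CharZero W.K] (P : NDat W S X) {A : Module.End W.K (W.H X)}
    (hA : ∀ m, ∀ c ∈ S.C (pw X m), derOp A m c = 0) (a b : W.H X) :
    A (a * b) = A a * b + a * A b := by
  set f : X ⟶ X.prod X := Obj.lift (𝟙 X) (𝟙 X) with hf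
  have h1 : ∀ x y : W.H X, W.map f (xp W x y : W.H (X.prod X)) = x * y := by
    intro x y
    rw [xp, map_mul, ← W.map_comp, ← W.map_comp, hf, Obj.lift_fst, Obj.lift_snd, W.map_id,
      W.map_id]
  have h2 := P.comm_corr hA (m := 1) (n := 0) (φ := (W.map f).toLinearMap) (Sys.Op.map f)
    (xp W a b : W.H (X.prod X))
  have h3 : (derOp A 0 : Module.End W.K (W.H X)) ((W.map f) (xp W a b : W.H (X.prod X))) =
      W.map f ((derOp A 1 : Module.End W.K (W.H (X.prod X))) (xp W a b : W.H (X.prod X))) := h2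
  have h4 : (derOp A 1 : Module.End W.K (W.H (X.prod X))) (xp W a b : W.H (X.prod X)) =
      xp W (A a) b + xp W a (A b) := by
    have h5 := TG.derOp_cross (V := W) A 0 a b
    have h6 : (derOp A 0 : Module.End W.K (W.H X)) a = A a := TP.S.derOp_zero' a
    refine h5.trans ?_
    refine congrArg₂ (· + ·) ?_ rfl
    exact congrArg (fun x => (xp W x b : W.H (X.prod X))) h6
  rw [h4, h1, TP.S.derOp_zero'] at h3
  rw [h3, map_add, h1, h1]

end Pool.Agent.Q67.TG

namespace Pool.Agent.Q67.TB.S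

open Pool.Agent.H914 Pool.Agent.H914.VarClass Pool.Agent.H914.VarClass.Obj
  Pool.Agent.H914.WeilCohomology
open Pool.Agent.Y133.Half hiding prj extOp_xp tateDim
open Pool.Agent.Q67.Det Pool.Agent.Q67.TK
open Pool.Agent.Q67.TG
open Pool.Agent.Y121 Pool.Agent.Y121.AHS
open Pool.Agent.Q67.TP Pool.Agent.Q67.TP.S Pool.Agent.Q67.TA.S

variable {k : Type u} [Field k] {𝒱 : VarClass k} {ops : CycleOps 𝒱} {T : HodgeTheory ops}
  {X Y Z : 𝒱.Obj} {R C : Classes T} {Q Q' : ClassPred (VV T)}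

/-- Comparison of the Casimir classes. -/
lemma isCasimirOf_iff (hR : Rp R Q') {u π : ROp T X} {c : RH T (pow4 X)} :
    IsCasimirOf R X u π c ↔ IsCasP (T := toH T) Q'.sys X (oo π) (oo u) (cc c) := by
  constructor
  · rintro ⟨n, e, e', r, w, w', D, E, rfl⟩
    exact ⟨n, fun i => oo (e i), fun i => oo (e' i), r, fun a => cc (w a), fun a => cc (w' a),
      ⟨fun i => hR.lie_iff.1 (D.mem i).1, fun i => hR.lie_iff.1 (D.mem i).2, fun i j => D.dual i j,
        fun A hA => D.span _ ((hR.lie_iff (A := uu A)).2 hA)⟩,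
      ⟨fun a => E.mem a, fun x => E.span x, fun a b => E.dual a b⟩, rfl⟩
  · rintro ⟨n, e, e', r, w, w', D, E, hc⟩
    exact ⟨n, fun i => uu (e i), fun i => uu (e' i), r, fun a => dc (w a), fun a => dc (w' a),
      ⟨fun i => ⟨(hR.lie_iff (A := uu (e i))).2 (D.he i), (hR.lie_iff (A := uu (e' i))).2 (D.he' i)⟩,
        fun A hA => D.sp _ (hR.lie_iff.1 hA), fun i j => D.dual i j⟩,
      ⟨fun a => E.mem a, fun x => E.sp x, fun a b => E.dual a b⟩, hc⟩

/-- The direct summand. -/
lemma summ_of (hC : Rp C Q) {u π : ROp T X} {i : ℕ} (G : Generating C X u π i)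
    (P : PolData (toH T) Q.sys X) (hPu : P.uu = oo u) : Summ P (oo π) where
  op := hC.op_iff.1 G.op
  idem := G.idem
  symm := by rw [hPu]; exact fun x y => G.symm x y
  inj := by
    intro D hD h
    have := charZero_K (toH T)
    have hcomm : oo π * D = D * oo π := (P.nd.comm_op hD (hC.op_iff.1 G.op)).symm
    have h1 : LinearMap.ker (uu D) = ⊤ := by
      refine G.gen _ (fun x => ?_) (fun c hc => ?_) (fun a ha b hb => ?_)
      · have h2 : D (oo π x) = 0 := by
          have h3 : (oo π * D) x = (D * oo π) x := by rw [hcomm]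
          have h4 : D (oo π x) = (oo π * D) x := h3.symm
          rw [h4, h]; rfl
        exact h2
      · have h2 := hD 0 (cc c) (hC.span_iff.1 (Submodule.subset_span hc))
        have h3 := derOp_zero' (V := VV T) (A := D) (cc c)
        exact h3.symm.trans h2
      · have h2 := P.nd.der_mul hD (cc a) (cc b)
        have ha' : D (cc a) = 0 := ha
        have hb' : D (cc b) = 0 := hb
        rw [ha', hb', zero_mul, mul_zero, add_zero] at h2
        exact h2
    refine LinearMap.ext fun x => ?_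
    have h2 : x ∈ LinearMap.ker (uu D) := by rw [h1]; trivial
    exact h2

/-- **The Casimir class decides.** -/
theorem casimirOf (hR : ∀ (Z : 𝒱.Obj) (c : RH T Z), c ∈ R Z ↔ ∃ j, Q'.P Z j (cc c)) (hC : Rp C Q)
    (hQ : ∀ {Z : 𝒱.Obj} {j : ℕ} {c : (VV T).H Z}, Q.P Z j c → Q'.P Z j c)
    (hH : ∀ {Z : 𝒱.Obj} {j : ℕ} {c : (VV T).H Z}, Q'.P Z j c → (AH.hodgePred (toH T)).P Z j c)
    (hcl : Closed Q' X) {u π : ROp T X} {i : ℕ} (G : Generating C X u π i)
    (P : PolData (toH T) Q.sys X) (hPu : P.uu = oo u) {N : ℕ∞} (hL : Law R C X N) :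
    ∃ c, IsCasimirOf R X u π c ∧ (∀ c', IsCasimirOf R X u π c' → c' = c) ∧ c ∈ R (pow4 X) ∧
      RDeg (2 * (2 * i)) c ∧ Decides R C X u π i c N := by
  have hR' : Rp R Q' :=
    ⟨fun {Z c} hc => (hR Z c).1 hc, fun {Z j c} hc => Submodule.subset_span ((hR Z c).2 ⟨j, hc⟩)⟩
  have h5 : N ≠ ⊤ ↔ ∀ A : Module.End (toH T).W.K ((toH T).W.H X), KillsAll Q.sys X A →
      KillsAll Q'.sys X A := hL.infinitesimal.trans (lie_sub_iff hR' hC)
  have H := summ_of hC G P hPu
  obtain ⟨c, hc⟩ := exists_isCasP H hQ hH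
  have hc0 : IsCasimirOf R X u π (dc c) := by
    rw [isCasimirOf_iff hR']
    rw [hPu] at hc
    exact hc
  -- the degree
  have hdeg : ∀ x, oo π x ∈ (VV T).gr X i := fun x => G.deg x
  have hcd : c ∈ (VV T).gr (pow4 X) (2 * (2 * i)) := by
    obtain ⟨n, e, e', r, w, w', D, E, rfl⟩ := hc
    have := charZero_K (toH T)
    have key : ∀ A : Module.End (toH T).W.K ((toH T).W.H X), KillsAll Q'.sys X A →
        (∑ a, xp (toH T).W (A (w a)) (w' a) : (VV T).H (X.prod X)) ∈
          (VV T).gr (X.prod X) (2 * i) := by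
      intro A hA
      have hcomm : oo π * A = A * oo π := (P.nd.comm_op (killsQ H hQ hA) H.op).symm
      refine Submodule.sum_mem _ fun a _ => ?_
      have e1 : A (w a) ∈ (VV T).gr X i := by
        have h1 : A (oo π (w a)) = oo π (A (w a)) := by
          have h3 : (oo π * A) (w a) = (A * oo π) (w a) := by rw [hcomm]
          exact h3.symm
        rw [← (E.mem a).1, h1]
        exact hdeg _
      have e2 : w' a ∈ (VV T).gr X i := by rw [← (E.mem a).2]; exact hdeg _
      rw [two_mul, xp]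
      exact (VV T).mul_mem ((VV T).map_mem _ e1) ((VV T).map_mem _ e2)
    refine Submodule.sum_mem _ fun l _ => ?_
    rw [two_mul (2 * i), xp]
    exact (VV T).mul_mem ((VV T).map_mem _ (key _ (D.he l))) ((VV T).map_mem _ (key _ (D.he' l)))
  have hcm := isCasP_mem H hQ hH hcl hc
  have hcR : Q'.P (pow4 X) (2 * i) c := by
    have h3 := ClassPred.sp_proj (Q := Q') hcm (2 * i)
    rwa [proj_same _ hcd] at h3
  have hone : InCodim R C (X.prod X) i → NoSkewCentre C X u π →
      (N ≠ ⊤ ↔ InSpanOf C (dc c)) := by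
    intro h2 hs
    refine h5.trans ?_
    rw [casP_square H hQ hH hcl hc hdeg ?_ ?_]
    · exact hC.span_iff.symm
    · intro z hz
      have h6 : InSpanOf C (dc z) := h2 (dc z) ((hR _ _).2 ⟨i, hz⟩) (Q'.gr hz)
      have h7 := ClassPred.sp_proj (Q := Q) (hC.span_iff.1 h6) i
      rwa [TP.S.cc, dc, proj_same _ (Q'.gr hz)] at h7
    · intro φ hφ h6 h7 h8 h9
      refine hs (uu φ) ⟨⟨(hC.op_iff (φ := uu φ)).2 hφ, h6, h7⟩, fun ψ hψ => ?_⟩ fun x y => ?_
      · exact h8 (oo ψ) (hC.op_iff.1 hψ.1) hψ.2.1 hψ.2.2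
      · rw [hPu] at h9
        exact h9 x y
  refine ⟨dc c, hc0, fun c' hc' => ?_, (hR _ _).2 ⟨_, hcR⟩, hcd, ⟨?_, hone, ?_⟩⟩
  · have h1 := (isCasimirOf_iff hR').1 hc'
    rw [← hPu] at h1
    exact isCasP_unique H hQ h1 hc
  · refine h5.trans ?_
    rw [casP_crit H hQ hH hcl hc]
    refine and_congr hC.span_iff.symm ⟨fun h A hA h1 => ?_, fun h A hA h1 => ?_⟩
    · exact hR'.lie_iff.2 (h _ (hC.lie_iff.1 hA) (hR'.op_iff.1 h1))
    · exact (hR'.lie_iff (A := uu A)).1 (h (uu A) ((hC.lie_iff (A := uu A)).2 hA)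
        ((hR'.op_iff (φ := uu A)).2 h1))
  · intro h2 hs h4
    exact (hone h2 hs).2 (h4 (dc c) ((hR _ _).2 ⟨_, hcR⟩) hcd)

/-- **The law for the Hodge classes over a system and the Casimir class.** -/
theorem law_casimirOf (hC : Rp C Q)
    (hQ : ∀ {Z : 𝒱.Obj} {j : ℕ} {c : (VV T).H Z}, Q.P Z j c → (AH.hodgePred (toH T)).P Z j c)
    {u π : ROp T X} {i : ℕ} (h : PolarisedBy C X u) (ho : OddIn C X) (G : Generating C X u π i)
    [Nontrivial (RH T X)] :
    ∃ N, Law (hodge T) C X N ∧ ∃ c, IsCasimirOf (hodge T) X u π c ∧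
      (∀ c', IsCasimirOf (hodge T) X u π c' → c' = c) ∧ IsHodge T (pow4 X) (2 * i) c ∧
        Decides (hodge T) C X u π i c N := by
  have hnt : Nontrivial ((VV T).H X) := ‹Nontrivial (RH T X)›
  obtain ⟨N, hN, -⟩ := law_hodge hC hQ h ho
  obtain ⟨c, h1, h2, h3, h4, h5⟩ := casimirOf (X := X) ex_hodge' hC hQ (fun h => h)
    (closed_hodge X) G (polQ hC hQ h ho) rfl hN
  refine ⟨N, hN, c, h1, h2, ?_, h5⟩
  obtain ⟨j, hj⟩ := h3
  by_cases hc0 : c = 0
  · rw [hc0]
    exact ⟨Submodule.zero_mem _, (AH.hodgePred (toH T)).zero.2⟩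
  · have hj' : (2 * j : ℕ) = 2 * (2 * i) := by
      by_contra hne
      apply hc0
      have h6 := proj_same ((VV T).isInternal (pow4 X)) (show c ∈ (VV T).gr (pow4 X) _ from h4)
      have h7 := proj_ne ((VV T).isInternal (pow4 X)) (show c ∈ (VV T).gr (pow4 X) _ from hj.1) hne
      exact h6.symm.trans h7
    obtain rfl : j = 2 * i := by omega
    exact hj

end Pool.Agent.Q67.TB.S
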