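import Pool.Agent.Q67.TB.Mat

/-!
# The Casimir tensor decides
-/

set_option autoImplicit false
set_option linter.unusedSectionVars false

open Matrix Finset

namespace Pool.Agent.Q67.TB

open Pool.Agent.Q67.TK

variable {B : Type} [Fintype B] [DecidableEq B] {K : Type*} [Field K] [Algebra K ℂ]
  {𝓡 𝒜 : ∀ n, Submodule K ((Fin n → B) → K)}

open scoped ComplexOrder in
/-- **The Casimir tensor and the tensors of degree two.** -/
theorem cas_larsen {C C' : Matrix B B ℂ} {q κ q₁ κ₁ : Matrix B B K}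
    (hK : ∀ r : K, star (algebraMap K ℂ r) = algebraMap K ℂ r)
    (hC : C' * C = 1) (hfix : ∀ n, ∀ F ∈ 𝓡 n, pM n C *ᵥ up F = up F)
    (hqκ : q * κ = 1) (hpos : (Cᵀ * upM q).PosDef)
    (hcl : ∀ n, ∀ {F : (Fin n → B) → K}, (∀ A ∈ Ann 𝓡, dM n A *ᵥ F = 0) → F ∈ 𝓡 n)
    (hle : ∀ n, 𝒜 n ≤ 𝓡 n) (hκ : t2 κ ∈ 𝒜 2) (hqκ₁ : q₁ * κ₁ = 1) (hκ₁ : t2 κ₁ ∈ 𝒜 2)
    {N : ℕ} {e e' : Fin N → Matrix B B K} (D : DB (Ann 𝓡) e e') (hcas : cas e e' κ₁ ∈ 𝒜 (2 + 2))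
    (hZ : ∀ Y : Matrix B B K, Y ∈ Ann 𝒜 → t2 (Y * κ₁) ∈ 𝓡 2 → Y ∈ Ann 𝓡) :
    Ann 𝒜 ≤ Ann 𝓡 := by
  have hκq₁ : κ₁ * q₁ = 1 := mul_eq_one_comm.1 hqκ₁
  have hκz : t2 κ ∈ 𝓡 2 := hle 2 hκ
  have hκz₁ : t2 κ₁ ∈ 𝓡 2 := hle 2 hκ₁
  have hmono : Ann 𝓡 ≤ Ann 𝒜 := fun A hA n F hF => hA n F (hle n hF)
  intro A hA
  have hAskew : A * κ₁ + κ₁ * Aᵀ = 0 := skew_of_Ann hκ₁ hA
  have hAm : ∀ Y ∈ Ann 𝓡, A * Y - Y * A ∈ Ann 𝓡 :=
    bracket_mem hκq₁ D.he D.exp D.ind' hAskew (hA _ _ hcas)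
  set A1 : Matrix B B K := ∑ i, (A * e' i).trace • e i with hA1
  have hA1m : A1 ∈ Ann 𝓡 :=
    Submodule.sum_mem _ fun i _ => Submodule.smul_mem _ _ (D.he i)
  set A2 := A - A1 with hA2
  have horth : ∀ Y ∈ Ann 𝓡, (A2 * Y).trace = 0 := by
    have h5 : ∀ j, (A2 * e' j).trace = 0 := by
      intro j
      rw [hA2, Matrix.sub_mul, Matrix.trace_sub, hA1, Finset.sum_mul, Matrix.trace_sum]
      simp only [Matrix.smul_mul, Matrix.trace_smul, D.dual, smul_eq_mul]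
      simp
    intro Y hY
    rw [D.exp' Y hY, Finset.mul_sum, Matrix.trace_sum]
    refine Finset.sum_eq_zero fun j _ => ?_
    rw [Matrix.mul_smul, Matrix.trace_smul, h5, smul_zero]
  have hA2m : ∀ Y ∈ Ann 𝓡, A2 * Y - Y * A2 ∈ Ann 𝓡 := by
    intro Y hY
    have : A2 * Y - Y * A2 = (A * Y - Y * A) - (A1 * Y - Y * A1) := by
      rw [hA2, Matrix.sub_mul, Matrix.mul_sub]
      abel
    rw [this]
    exact Submodule.sub_mem _ (hAm Y hY) (Ann_bracket hA1m hY)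
  have hcomm : ∀ Y ∈ Ann 𝓡, A2 * Y - Y * A2 = 0 := by
    intro Y hY
    by_contra hne
    obtain ⟨Z, hZm, hZt⟩ := nondegG hK hC hfix hqκ hκz hpos (hA2m Y hY) hne
    apply hZt
    rw [Matrix.sub_mul, Matrix.trace_sub]
    have t1 : (Y * A2 * Z).trace = (A2 * (Z * Y)).trace := by
      rw [Matrix.mul_assoc, Matrix.trace_mul_comm, Matrix.mul_assoc]
    rw [t1, Matrix.mul_assoc, ← Matrix.trace_sub, ← Matrix.mul_sub]
    exact horth _ (Ann_bracket hY hZm)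
  have hA2K : t2 (A2 * κ₁) ∈ 𝓡 2 := by
    refine hcl _ fun Y hY => ?_
    rw [dM_t2_skew (skew_of_Ann hκz₁ hY)]
    have : Y * A2 - A2 * Y = 0 := by
      rw [← neg_sub, hcomm Y hY, neg_zero]
    rw [this, Matrix.zero_mul, t2_zero]
  have hA2A : A2 ∈ Ann 𝒜 := Submodule.sub_mem _ hA (hmono hA1m)
  have h8 := hZ A2 hA2A hA2K
  have h9 : A = A2 + A1 := by rw [hA2, sub_add_cancel]
  rw [h9]
  exact Submodule.add_mem _ h8 hA1m

open scoped ComplexOrder in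
/-- Dual bases of the annihilator exist. -/
theorem exists_DB {C C' : Matrix B B ℂ} {q κ : Matrix B B K}
    (hK : ∀ r : K, star (algebraMap K ℂ r) = algebraMap K ℂ r)
    (hC : C' * C = 1) (hfix : ∀ n, ∀ F ∈ 𝓡 n, pM n C *ᵥ up F = up F)
    (hqκ : q * κ = 1) (hpos : (Cᵀ * upM q).PosDef) (hκ : t2 κ ∈ 𝓡 2) :
    ∃ (N : ℕ) (e e' : Fin N → Matrix B B K), DB (Ann 𝓡) e e' := by
  obtain ⟨N, e, e', he, he', hdual, hexp, -, -⟩ := exists_dual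
    (V := Ann 𝓡) fun A hA hA0 => nondegG hK hC hfix hqκ hκ hpos hA hA0
  exact ⟨N, e, e', he, he', hdual, hexp⟩

/-- The Casimir tensor belongs to a closed system. -/
theorem cas_closed {κ₁ : Matrix B B K}
    (hcl : ∀ n, ∀ {F : (Fin n → B) → K}, (∀ A ∈ Ann 𝓡, dM n A *ᵥ F = 0) → F ∈ 𝓡 n)
    (hκ₁ : t2 κ₁ ∈ 𝓡 2) {N : ℕ} {e e' : Fin N → Matrix B B K} (D : DB (Ann 𝓡) e e') :
    cas e e' κ₁ ∈ 𝓡 (2 + 2) :=
  hcl _ fun _ hA => cas_mem hκ₁ D.he D.he' D.exp D.exp' hA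

/-- The Casimir tensor does not depend on the dual bases. -/
theorem cas_unique {V : Submodule K (Matrix B B K)} {κ₁ : Matrix B B K} {N M : ℕ}
    {e e' : Fin N → Matrix B B K} {f f' : Fin M → Matrix B B K} (D : DB V e e') (E : DB V f f') :
    cas e e' κ₁ = cas f f' κ₁ := by
  have h1 : ∀ i, tp (t2 (e i * κ₁)) (t2 (e' i * κ₁)) =
      ∑ j, (e i * f' j).trace • tp (t2 (f j * κ₁)) (t2 (e' i * κ₁)) := by
    intro i
    conv_lhs => rw [E.exp _ (D.he i)]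
    rw [Finset.sum_mul, t2_sum, tp_sum_left]
    refine Finset.sum_congr rfl fun j _ => ?_
    rw [Matrix.smul_mul, t2_smul, tp_smul_left]
  have h2 : ∀ j, tp (t2 (f j * κ₁)) (t2 (f' j * κ₁)) =
      ∑ i, (f' j * e i).trace • tp (t2 (f j * κ₁)) (t2 (e' i * κ₁)) := by
    intro j
    conv_lhs => rw [D.exp' _ (E.he' j)]
    rw [Finset.sum_mul, t2_sum, tp_sum_right]
    refine Finset.sum_congr rfl fun i _ => ?_
    rw [Matrix.smul_mul, t2_smul, tp_smul_right]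
  rw [cas, cas, Finset.sum_congr rfl fun i _ => h1 i, Finset.sum_congr rfl fun j _ => h2 j,
    Finset.sum_comm]
  refine Finset.sum_congr rfl fun j _ => Finset.sum_congr rfl fun i _ => ?_
  rw [Matrix.trace_mul_comm]

end Pool.Agent.Q67.TB
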