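import Pool.Agent.Q67.TB.Cls

/-!
# The Casimir class decides
-/

set_option autoImplicit false
set_option linter.unusedSectionVars false

open CategoryTheory AlgebraicGeometry

universe u v

namespace Pool.Agent.Q67.TG

open Pool.Agent.H914 Pool.Agent.H914.VarClass Pool.Agent.H914.VarClass.Obj
  Pool.Agent.H914.WeilCohomology
open Pool.Agent.Y133.Half hiding prj extOp_xp
open Pool.Agent.Q67.Det Pool.Agent.Q67.TK Pool.Agent.Q67.TB
open Pool.Agent.Y121.AH
open scoped Matrix

variable {k : Type u} [Field k] {𝒱 : VarClass k} {ops : CycleOps 𝒱} {T : HodgeTheory ops}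
  {X Y Z : 𝒱.Obj}

/-- Dual bases of the Lie algebra of the operators which kill the classes of the system. -/
structure DualB (S : Sys T.W) (X : 𝒱.Obj) {N : ℕ} (e e' : Fin N → Module.End T.W.K (T.W.H X)) :
    Prop where
  he : ∀ i, KillsAll S X (e i)
  he' : ∀ i, KillsAll S X (e' i)
  dual : ∀ i j, LinearMap.trace T.W.K (T.W.H X) (e i * e' j) = if i = j then 1 else 0
  sp : ∀ A, KillsAll S X A → A ∈ Submodule.span T.W.K (Set.range e)

/-- The Casimir class. -/
def IsCas (S : Sys T.W) (X : 𝒱.Obj) (c : T.W.H ((X.prod X).prod (X.prod X))) : Prop :=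
  ∃ (N : ℕ) (e e' : Fin N → Module.End T.W.K (T.W.H X)) (z z' : Fin N → T.W.H (X.prod X)),
    DualB S X e e' ∧ (∀ i, T.W.corr (z i) = e i) ∧ (∀ i, T.W.corr (z' i) = e' i) ∧
      c = ∑ i, xp T.W (z i) (z' i)

section tens

variable {n : ℕ} {v : Module.Basis (Fin n) T.W.K (T.W.H X)}

lemma DualB.db {S : Sys T.W} {N : ℕ} {e e' : Fin N → Module.End T.W.K (T.W.H X)}
    (D : DualB S X e e') : DB (Ann (Cs S v)) (fun i => mt v (e i)) (fun i => mt v (e' i)) := by
  have hdual : ∀ i j, (mt v (e i) * mt v (e' j)).trace = if i = j then 1 else 0 := by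
    intro i j
    rw [← D.dual i j, ← mt_mul, LinearMap.trace_eq_matrix_trace T.W.K v]
    rfl
  refine ⟨fun i => (killsAll_iff (v := v)).1 (D.he i), fun i => (killsAll_iff (v := v)).1 (D.he' i),
    hdual, fun Y hY => ?_⟩
  have htoLin : mt v (Matrix.toLin v v Y) = Y := LinearMap.toMatrix_toLin v v Y
  have h1 : KillsAll S X (Matrix.toLin v v Y) := by
    rw [killsAll_iff (v := v), htoLin]; exact hY
  obtain ⟨c, hc⟩ := (Submodule.mem_span_range_iff_exists_fun T.W.K).1 (D.sp _ h1)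
  have h2 : Y = ∑ i, c i • mt v (e i) := by
    rw [← htoLin, ← hc, mt, map_sum]
    refine Finset.sum_congr rfl fun i _ => ?_
    rw [map_smul]
    rfl
  have h3 : ∀ j, (Y * mt v (e' j)).trace = c j := by
    intro j
    rw [h2, Finset.sum_mul, Matrix.trace_sum]
    simp only [Matrix.smul_mul, Matrix.trace_smul, hdual, smul_eq_mul]
    simp
  conv_lhs => rw [h2]
  exact Finset.sum_congr rfl fun i _ => by rw [h3]

lemma DualB.of_db {S : Sys T.W} {N : ℕ} {e e' : Fin N → Matrix (Fin n) (Fin n) T.W.K}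
    (D : DB (Ann (Cs S v)) e e') :
    DualB S X (fun i => Matrix.toLin v v (e i)) (fun i => Matrix.toLin v v (e' i)) := by
  have htoLin : ∀ Y, mt v (Matrix.toLin v v Y) = Y := fun Y => LinearMap.toMatrix_toLin v v Y
  refine ⟨fun i => ?_, fun i => ?_, fun i j => ?_, fun A hA => ?_⟩
  · rw [killsAll_iff (v := v), htoLin]; exact D.he i
  · rw [killsAll_iff (v := v), htoLin]; exact D.he' i
  · rw [LinearMap.trace_eq_matrix_trace T.W.K v]
    change (mt v (Matrix.toLin v v (e i) * Matrix.toLin v v (e' j))).trace = _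
    rw [mt_mul, htoLin, htoLin, D.dual]
  · have h1 := (killsAll_iff (v := v)).1 hA
    have h2 := congrArg (Matrix.toLin v v) (D.exp _ h1)
    rw [mt, Matrix.toLin_toMatrix, map_sum] at h2
    rw [h2]
    refine Submodule.sum_mem _ fun i _ => ?_
    rw [map_smul]
    exact Submodule.smul_mem _ _ (Submodule.subset_span ⟨i, rfl⟩)

variable {Q R : ClassPred T.W}

lemma one_kap : qM v (1 : Module.End T.W.K (T.W.H X)) *
    (qM v (1 : Module.End T.W.K (T.W.H X)))⁻¹ = 1 :=
  Matrix.mul_nonsing_inv _ (isUnit_iff_ne_zero.2 (det_ne_of_inj v Function.injective_id))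

/-- The data for a smaller system. -/
noncomputable def PolData.nd (P : PolData T Q.sys X) : NDat T.W Q.sys X where
  uu := P.uu
  mem := P.mem
  odd := P.odd
  inj := by
    obtain ⟨n, v, d, hd⟩ := exists_homog_basis T.W X
    rw [← LinearMap.ker_eq_bot, LinearMap.ker_eq_bot']
    intro y hy
    have h6 : (qM v P.uu).mulVec (fun b => v.repr y b) = 0 := by
      funext a
      rw [Matrix.mulVec, dotProduct, Pi.zero_apply]
      have h7 : T.W.tr X (v a * P.uu y) = ∑ b, qM v P.uu a b * v.repr y b := by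
        conv_lhs => rw [← v.sum_repr y, map_sum, Finset.mul_sum, map_sum]
        refine Finset.sum_congr rfl fun b _ => ?_
        rw [map_smul, mul_smul_comm, map_smul, smul_eq_mul, mul_comm, qM]
      rw [← h7, hy, mul_zero, map_zero]
    have h8 : (fun b => v.repr y b) = 0 := by
      have := congrArg (fun w => (qM v P.uu)⁻¹.mulVec w) h6
      simpa [Matrix.mulVec_mulVec, mul_eq_one_comm.1 (P.q_kap (v := v))] using this
    apply v.repr.injective
    ext b
    simpa using congrFun h8 b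

/-- The Casimir class of dual bases in terms of tensors. -/
lemma sum_xp {d : Fin n → ℕ} (hd : ∀ b, v b ∈ T.W.gr X (d b)) {N : ℕ}
    {e e' : Fin N → Module.End T.W.K (T.W.H X)} {z z' : Fin N → T.W.H (X.prod X)}
    (he : ∀ i, Ev T.W (e i) ∧ ∀ x y, T.W.tr X (e i x * y) = -T.W.tr X (x * e i y))
    (he' : ∀ i, Ev T.W (e' i) ∧ ∀ x y, T.W.tr X (e' i x * y) = -T.W.tr X (x * e' i y))
    (hz : ∀ i, T.W.corr (z i) = e i) (hz' : ∀ i, T.W.corr (z' i) = e' i) :
    (∑ i, xp T.W (z i) (z' i) : T.W.H ((X.prod X).prod (X.prod X))) =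
      PP v (pr4 X) (cas (fun i => mt v (e i)) (fun i => mt v (e' i))
        (qM v (1 : Module.End T.W.K (T.W.H X)))⁻¹) := by
  have h1 : PP v (pr4 X) (cas (fun i => mt v (e i)) (fun i => mt v (e' i))
      (qM v (1 : Module.End T.W.K (T.W.H X)))⁻¹) = ∑ i, PP v (pr4 X)
        (tp (t2 (mt v (e i) * (qM v (1 : Module.End T.W.K (T.W.H X)))⁻¹))
          (t2 (mt v (e' i) * (qM v (1 : Module.End T.W.K (T.W.H X)))⁻¹))) := by
    have key : ∀ (s : Finset (Fin N)) (F : Fin N → (Fin (2 + 2) → Fin n) → T.W.K),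
        PP v (pr4 X) (∑ i ∈ s, F i) = ∑ i ∈ s, PP v (pr4 X) (F i) := by
      classical
      intro s F
      induction s using Finset.induction_on with
      | empty => rw [Finset.sum_empty, Finset.sum_empty, PP_zero]
      | insert a s ha ih => rw [Finset.sum_insert ha, Finset.sum_insert ha, PP_add, ih]
    exact key Finset.univ _
  rw [h1]
  refine Finset.sum_congr rfl fun i _ => ?_
  rw [PP_pr4, corr_skew hd (he i).1 (he i).2 one_kap (hz i),
    corr_skew hd (he' i).1 (he' i).2 one_kap (hz' i)]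
  change xp T.W (-cM2 v _) (-cM2 v _) = xp T.W (cM2 v _) (cM2 v _)
  rw [xp, xp, map_neg, map_neg, neg_mul_neg]

end tens

section main

variable {Q R : ClassPred T.W} (P : PolData T Q.sys X)
  (hQR : ∀ {Z : 𝒱.Obj} {j : ℕ} {c : T.W.H Z}, Q.P Z j c → R.P Z j c)

include P hQR

lemma kills_ev {A : Module.End T.W.K (T.W.H X)} (hA : KillsAll R.sys X A) :
    Ev T.W A ∧ ∀ x y, T.W.tr X (A x * y) = -T.W.tr X (x * A y) := by
  have := charZero_K T
  have h1 : KillsAll Q.sys X A := fun m c hc => hA m c (ClassPred.sys_le hQR _ hc)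
  exact ⟨P.nd.ev_of_kill h1, P.nd.tr_skew h1⟩

/-- The Casimir class in terms of tensors. -/
lemma cas_tens {n : ℕ} {v : Module.Basis (Fin n) T.W.K (T.W.H X)} {d : Fin n → ℕ}
    (hd : ∀ b, v b ∈ T.W.gr X (d b)) {c : T.W.H ((X.prod X).prod (X.prod X))}
    (hc : IsCas R.sys X c) : ∃ (N : ℕ) (e e' : Fin N → Matrix (Fin n) (Fin n) T.W.K),
      DB (Ann (Cs R.sys v)) e e' ∧
      c = PP v (pr4 X) (cas e e' (qM v (1 : Module.End T.W.K (T.W.H X)))⁻¹) := by
  obtain ⟨N, e, e', z, z', D, hz, hz', rfl⟩ := hc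
  exact ⟨N, _, _, D.db, sum_xp hd (fun i => kills_ev P hQR (D.he i))
    (fun i => kills_ev P hQR (D.he' i)) hz hz'⟩

/-- The Casimir class is unique. -/
theorem isCas_unique {c c' : T.W.H ((X.prod X).prod (X.prod X))} (hc : IsCas R.sys X c)
    (hc' : IsCas R.sys X c') : c = c' := by
  obtain ⟨n, v, d, hd⟩ := exists_homog_basis T.W X
  obtain ⟨N, e, e', D, rfl⟩ := cas_tens P hQR hd hc
  obtain ⟨N', f, f', D', rfl⟩ := cas_tens P hQR hd hc'
  rw [cas_unique D D']

section hodge

variable (hRH : ∀ {Z : 𝒱.Obj} {j : ℕ} {c : T.W.H Z}, R.P Z j c → (hodgePred T).P Z j c)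

include hRH

open scoped ComplexOrder in
/-- The Casimir class exists. -/
theorem exists_isCas : ∃ c, IsCas R.sys X c := by
  obtain ⟨n, v, d, hd⟩ := exists_homog_basis T.W X
  have hpos := posDef_of_pol (v := v) P.pol
  have hMu : IsUnit ((cM v)ᵀ * upM (qM v P.uu)).det :=
    (Matrix.isUnit_iff_isUnit_det _).1 hpos.isUnit
  have hCu : IsUnit (cM v).det := by
    rw [Matrix.det_mul, Matrix.det_transpose] at hMu
    exact isUnit_of_mul_isUnit_left hMu
  have hleQR : ∀ Z, Q.sys.C Z ≤ R.sys.C Z := fun Z => ClassPred.sys_le hQR Z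
  obtain ⟨N, e, e', D⟩ := exists_DB (𝓡 := Cs R.sys v) (C := cM v) (C' := (cM v)⁻¹)
    (q := qM v P.uu) (κ := (qM v P.uu)⁻¹) (real_K T) (Matrix.nonsing_inv_mul _ hCu)
    (fun l F hF => cM_fix v (fun Z f => ClassPred.sys_le hRH _ (hF Z f))) P.q_kap hpos
    (fun Z f => hleQR Z (kap_mem hd P.mem P.q_kap Z f))
  have D' := DualB.of_db D
  have hex : ∀ φ : Module.End T.W.K (T.W.H X), KillsAll R.sys X φ →
      ∃ z : T.W.H (X.prod X), T.W.corr z = φ := by
    intro φ hφ
    obtain ⟨h1, h2⟩ := kills_ev P hQR hφ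
    refine ⟨-cM2 v (mt v φ * (qM v (1 : Module.End T.W.K (T.W.H X)))⁻¹), ?_⟩
    have h3 : T.W.corr (-cM2 v (mt v φ * (qM v (1 : Module.End T.W.K (T.W.H X)))⁻¹)) =
        -T.W.corr (cM2 v (mt v φ * (qM v (1 : Module.End T.W.K (T.W.H X)))⁻¹)) :=
      map_neg (corrL T.W X X) _
    rw [h3]
    apply LinearMap.ext
    intro x
    apply T.W.tr_ext
    intro y
    rw [LinearMap.neg_apply, neg_mul, map_neg]
    refine Eq.trans ?_ (h2 x y).symm
    rw [← corr_op hd h1 one_kap]
  choose z hz using fun i => hex _ (D'.he i)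
  choose z' hz' using fun i => hex _ (D'.he' i)
  exact ⟨_, N, _, _, z, z', D', hz, hz', rfl⟩

open scoped ComplexOrder in
/-- The Casimir class belongs to a closed system. -/
theorem isCas_mem (hcl : Closed R X) {c : T.W.H ((X.prod X).prod (X.prod X))}
    (hc : IsCas R.sys X c) : c ∈ R.sys.C ((X.prod X).prod (X.prod X)) := by
  obtain ⟨n, v, d, hd⟩ := exists_homog_basis T.W X
  obtain ⟨N, e, e', D, rfl⟩ := cas_tens P hQR hd hc
  refine mem_pr4.1 ?_
  exact cas_closed (𝓡 := Cs R.sys v) (fun l {F} h => hcl n v l F h)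
    (kap_mem hd Sys.Op.id one_kap) D

open scoped ComplexOrder in
/-- **The Casimir class decides.** -/
theorem cas_crit (hcl : Closed R X) {c : T.W.H ((X.prod X).prod (X.prod X))}
    (hc : IsCas R.sys X c) :
    (∀ A : Module.End T.W.K (T.W.H X), KillsAll Q.sys X A → KillsAll R.sys X A) ↔
      c ∈ Q.sys.C ((X.prod X).prod (X.prod X)) ∧
      ∀ A : Module.End T.W.K (T.W.H X), KillsAll Q.sys X A → A ∈ R.sys.Op X X →
        KillsAll R.sys X A := by
  obtain ⟨n, v, d, hd⟩ := exists_homog_basis T.W X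
  have hpos := posDef_of_pol (v := v) P.pol
  have hMu : IsUnit ((cM v)ᵀ * upM (qM v P.uu)).det :=
    (Matrix.isUnit_iff_isUnit_det _).1 hpos.isUnit
  have hCu : IsUnit (cM v).det := by
    rw [Matrix.det_mul, Matrix.det_transpose] at hMu
    exact isUnit_of_mul_isUnit_left hMu
  have htoLin : ∀ M : Matrix (Fin n) (Fin n) T.W.K, mt v (Matrix.toLin v v M) = M := fun M =>
    LinearMap.toMatrix_toLin v v M
  have hAnn : ∀ (S : Sys T.W) (M : Matrix (Fin n) (Fin n) T.W.K), M ∈ Ann (Cs S v) ↔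
      KillsAll S X (Matrix.toLin v v M) := by
    intro S M
    rw [killsAll_iff (v := v), htoLin]
  have hleQR : ∀ Z, Q.sys.C Z ≤ R.sys.C Z := fun Z => ClassPred.sys_le hQR Z
  obtain ⟨N, e, e', D, rfl⟩ := cas_tens P hQR hd hc
  constructor
  · intro h
    refine ⟨mem_pr4.1 ?_, fun A hA _ => h A hA⟩
    have hEq : Ann (Cs Q.sys v) = Ann (Cs R.sys v) := by
      apply le_antisymm
      · intro M hM
        exact (hAnn _ M).2 (h _ ((hAnn _ M).1 hM))
      · intro M hM m F hF
        exact hM m F (fun Z f => hleQR Z (hF Z f))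
    have D1 : DB (Ann (Cs Q.sys v)) e e' := by rw [hEq]; exact D
    exact cas_mem_sys (C := cM v) (real_K T) hpos (P.rsys hd)
      (fun m F hF => cM_fix v (P.Cs_le m hF)) (kap_mem hd Sys.Op.id one_kap) D1
  · rintro ⟨h1, h2⟩ A hA
    have h := cas_larsen (𝓡 := Cs R.sys v) (C := cM v) (C' := (cM v)⁻¹) (q := qM v P.uu)
      (κ := (qM v P.uu)⁻¹) (q₁ := qM v (1 : Module.End T.W.K (T.W.H X)))
      (κ₁ := (qM v (1 : Module.End T.W.K (T.W.H X)))⁻¹) (real_K T)
      (Matrix.nonsing_inv_mul _ hCu)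
      (fun l F hF => cM_fix v (fun Z f => ClassPred.sys_le hRH _ (hF Z f))) P.q_kap hpos
      (fun l {F} h => hcl n v l F h) (𝒜 := Cs Q.sys v)
      (fun l F hF Z f => hleQR Z (hF Z f)) (kap_mem hd P.mem P.q_kap) one_kap
      (kap_mem hd Sys.Op.id one_kap) D (mem_pr4.2 h1)
      (by
        intro Y hY hYz
        rw [hAnn]
        refine h2 _ ((hAnn Q.sys Y).1 hY) ?_
        obtain ⟨hev, hsk⟩ : Ev T.W (Matrix.toLin v v Y) ∧ ∀ x y,
            T.W.tr X (Matrix.toLin v v Y x * y) = -T.W.tr X (x * Matrix.toLin v v Y y) :=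
          kills_ev (R := Q) P (fun h => h) ((hAnn Q.sys Y).1 hY)
        have h3 : cM2 v (mt v (Matrix.toLin v v Y) *
            (qM v (1 : Module.End T.W.K (T.W.H X)))⁻¹) ∈ R.sys.C (X.prod X) := by
          rw [htoLin]
          exact mem_Cs_succ.1 hYz
        have h4 := Sys.mem_Op.2 ⟨_, Submodule.neg_mem _ h3, rfl⟩
        have h5 : T.W.corr (-cM2 v (mt v (Matrix.toLin v v Y) *
            (qM v (1 : Module.End T.W.K (T.W.H X)))⁻¹)) = Matrix.toLin v v Y := by
          have h6 : T.W.corr (-cM2 v (mt v (Matrix.toLin v v Y) *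
              (qM v (1 : Module.End T.W.K (T.W.H X)))⁻¹)) =
              -T.W.corr (cM2 v (mt v (Matrix.toLin v v Y) *
                (qM v (1 : Module.End T.W.K (T.W.H X)))⁻¹)) :=
            map_neg (corrL T.W X X) _
          rw [h6]
          apply LinearMap.ext
          intro x
          apply T.W.tr_ext
          intro y
          rw [LinearMap.neg_apply, neg_mul, map_neg]
          refine Eq.trans ?_ (hsk x y).symm
          rw [← corr_op hd hev one_kap]
        rw [h5] at h4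
        exact h4)
    exact (killsAll_iff (v := v)).2 (h ((killsAll_iff (v := v)).1 hA))

/-- If the classes of the larger system on `X × X` belong to the smaller system, the Casimir class
alone decides. -/
theorem cas_square (hcl : Closed R X) {c : T.W.H ((X.prod X).prod (X.prod X))}
    (hc : IsCas R.sys X c) (h2 : ∀ j c, R.P (X.prod X) j c → Q.P (X.prod X) j c)
    (hsk : ∀ A ∈ Q.sys.Op X X, (∀ φ ∈ Q.sys.Op X X, A * φ = φ * A) →
      (∀ x y, T.W.tr X (A x * y) = -T.W.tr X (x * A y)) → A = 0) :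
    (∀ A : Module.End T.W.K (T.W.H X), KillsAll Q.sys X A → KillsAll R.sys X A) ↔
      c ∈ Q.sys.C ((X.prod X).prod (X.prod X)) := by
  have := charZero_K T
  refine ⟨fun h => ((cas_crit P hQR hRH hcl hc).1 h).1, fun h =>
    (cas_crit P hQR hRH hcl hc).2 ⟨h, fun A hA h1 => ?_⟩⟩
  have e1 : A ∈ Q.sys.Op X X := by
    obtain ⟨z, hz, rfl⟩ := Sys.mem_Op.1 h1
    refine Sys.mem_Op.2 ⟨z, ?_, rfl⟩
    refine ClassPred.sp_ind (Q := R) (q := fun c => c ∈ Q.sys.C (X.prod X))
      ?_ ?_ ?_ hz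
    · intro j x hx; exact ClassPred.sp_of (Q := Q) (h2 j x hx)
    · exact Submodule.zero_mem _
    · intro a b ha hb; exact Submodule.add_mem _ ha hb
  have e3 : A = 0 := hsk A e1 (fun φ hφ => P.nd.comm_op hA hφ) (P.nd.tr_skew hA)
  intro m c hc
  have h10 : (0 : Module.End T.W.K (T.W.H (pw X m))) =
      derOp (0 : Module.End T.W.K (T.W.H X)) m := by
    refine IsDer.eq ?_
    intro x
    rw [LinearMap.zero_apply]
    refine (Finset.sum_eq_zero fun i _ => ?_).symm
    exact ten_zero_of (i := i) (Function.update_self i _ x)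
  rw [e3, ← h10, LinearMap.zero_apply]

end hodge

end main

end Pool.Agent.Q67.TG
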