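import Pool.Agent.Q67.TB.Lar

/-!
# The Casimir tensor for the trace on a direct summand
-/

set_option autoImplicit false
set_option linter.unusedSectionVars false

open Matrix Finset

namespace Pool.Agent.Q67.TB

open Pool.Agent.Q67.TK

variable {B : Type} [Fintype B] [DecidableEq B] {K : Type*} [Field K] [Algebra K ℂ]

/-- Dual bases of a space of matrices, for the form `tr (P A B)`. -/
structure DBP (V : Submodule K (Matrix B B K)) (P : Matrix B B K) {N : ℕ}
    (e e' : Fin N → Matrix B B K) : Prop where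
  he : ∀ i, e i ∈ V
  he' : ∀ i, e' i ∈ V
  dual : ∀ i j, (P * e i * e' j).trace = if i = j then 1 else 0
  exp : ∀ Y ∈ V, Y = ∑ i, (P * Y * e' i).trace • e i

section basic

variable {V : Submodule K (Matrix B B K)} {P : Matrix B B K} (hP : ∀ Y ∈ V, P * Y = Y * P)
  {N : ℕ} {e e' : Fin N → Matrix B B K} (D : DBP V P e e')

include hP

lemma trP_symm {Y : Matrix B B K} (hY : Y ∈ V) (Z : Matrix B B K) :
    (P * Y * Z).trace = (P * Z * Y).trace := by
  rw [hP Y hY, Matrix.mul_assoc, Matrix.trace_mul_comm, Matrix.mul_assoc]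

include D

lemma DBP.exp' : ∀ Y ∈ V, Y = ∑ i, (P * Y * e i).trace • e' i := by
  intro Y hY
  set Z := Y - ∑ i, (P * Y * e i).trace • e' i with hZ
  have hZV : Z ∈ V := Submodule.sub_mem _ hY (Submodule.sum_mem _ fun i _ =>
    Submodule.smul_mem _ _ (D.he' i))
  have h1 : ∀ j, (P * Z * e j).trace = 0 := by
    intro j
    rw [hZ, Matrix.mul_sub, Matrix.sub_mul, Matrix.trace_sub, Finset.mul_sum, Finset.sum_mul,
      Matrix.trace_sum]
    rw [Finset.sum_eq_single j]
    · rw [Matrix.mul_smul, Matrix.smul_mul, Matrix.trace_smul, trP_symm hP (D.he' j), D.dual,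
        if_pos rfl, smul_eq_mul, mul_one, sub_self]
    · intro i _ hij
      rw [Matrix.mul_smul, Matrix.smul_mul, Matrix.trace_smul, trP_symm hP (D.he' i), D.dual,
        if_neg (Ne.symm hij), smul_zero]
    · intro h; exact absurd (Finset.mem_univ _) h
  have h2 : ∀ Y' ∈ V, (P * Z * Y').trace = 0 := by
    intro Y' hY'
    rw [D.exp Y' hY', Finset.mul_sum, Matrix.trace_sum]
    refine Finset.sum_eq_zero fun i _ => ?_
    rw [Matrix.mul_smul, Matrix.trace_smul, h1, smul_zero]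
  have h3 : Z = 0 := by
    rw [D.exp Z hZV]
    refine Finset.sum_eq_zero fun i _ => ?_
    rw [h2 _ (D.he' i), zero_smul]
  exact sub_eq_zero.1 h3

lemma DBP.swap : DBP V P e' e :=
  ⟨D.he', D.he, fun i j => by
    rw [trP_symm hP (D.he' i), D.dual]
    by_cases h : i = j
    · rw [if_pos h, if_pos h.symm]
    · rw [if_neg h, if_neg (Ne.symm h)], D.exp' hP⟩

lemma DBP.ind' : LinearIndependent K fun i => P * e' i := by
  rw [Fintype.linearIndependent_iff]
  intro c hc i
  have h1 := congrArg (fun M => (e i * M).trace) hc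
  simp only [Finset.mul_sum, Matrix.trace_sum, Matrix.mul_smul, Matrix.trace_smul,
    Matrix.mul_zero, Matrix.trace_zero] at h1
  have h2 : ∀ j, (e i * (P * e' j)).trace = if i = j then 1 else 0 := by
    intro j
    rw [← Matrix.mul_assoc, ← hP _ (D.he i), D.dual]
  simp only [h2, smul_eq_mul, mul_ite, mul_one, mul_zero] at h1
  rw [Finset.sum_ite_eq] at h1
  simpa using h1

end basic

/-- The Casimir tensor for the form `tr (P A B)`. -/
def casP (P : Matrix B B K) {N : ℕ} (e e' : Fin N → Matrix B B K) (κ : Matrix B B K) :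
    (Fin (2 + 2) → B) → K := cas (fun i => P * e i) (fun i => P * e' i) κ

lemma comm_bracket {P X Y : Matrix B B K} (h : P * X = X * P) :
    X * (P * Y) - P * Y * X = P * (X * Y - Y * X) := by
  rw [Matrix.mul_sub, ← Matrix.mul_assoc, ← h, Matrix.mul_assoc, Matrix.mul_assoc]

section closed

variable {𝓡 : ∀ n, Submodule K ((Fin n → B) → K)} {P κ : Matrix B B K}
  (hP : ∀ Y ∈ Ann 𝓡, P * Y = Y * P) {N : ℕ} {e e' : Fin N → Matrix B B K}

include hP

lemma casP_kill (hκ : t2 κ ∈ 𝓡 2) (D : DBP (Ann 𝓡) P e e') {X : Matrix B B K} (hX : X ∈ Ann 𝓡) :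
    dM (2 + 2) X *ᵥ casP P e e' κ = 0 := by
  rw [casP, dM_cas _ _ (skew_of_Ann hκ hX), Finset.sum_add_distrib]
  simp only [comm_bracket (hP X hX)]
  have e1 : ∑ i, tp (t2 (P * (X * e i - e i * X) * κ)) (t2 (P * e' i * κ)) =
      ∑ i, ∑ j, (P * (X * e i - e i * X) * e' j).trace •
        tp (t2 (P * e j * κ)) (t2 (P * e' i * κ)) := by
    refine Finset.sum_congr rfl fun i _ => ?_
    conv_lhs => rw [D.exp _ (Ann_bracket hX (D.he i))]
    rw [Finset.mul_sum, Finset.sum_mul, t2_sum, tp_sum_left]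
    refine Finset.sum_congr rfl fun j _ => ?_
    rw [Matrix.mul_smul, Matrix.smul_mul, t2_smul, tp_smul_left]
  have e2 : ∑ i, tp (t2 (P * e i * κ)) (t2 (P * (X * e' i - e' i * X) * κ)) =
      ∑ i, ∑ j, (P * (X * e' i - e' i * X) * e j).trace •
        tp (t2 (P * e i * κ)) (t2 (P * e' j * κ)) := by
    refine Finset.sum_congr rfl fun i _ => ?_
    conv_lhs => rw [D.exp' hP _ (Ann_bracket hX (D.he' i))]
    rw [Finset.mul_sum, Finset.sum_mul, t2_sum, tp_sum_right]
    refine Finset.sum_congr rfl fun j _ => ?_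
    rw [Matrix.mul_smul, Matrix.smul_mul, t2_smul, tp_smul_right]
  rw [e1, e2, Finset.sum_comm, ← Finset.sum_add_distrib]
  refine Finset.sum_eq_zero fun i _ => ?_
  rw [← Finset.sum_add_distrib]
  refine Finset.sum_eq_zero fun j _ => ?_
  rw [← add_smul]
  have : (P * (X * e j - e j * X) * e' i).trace + (P * (X * e' i - e' i * X) * e j).trace = 0 := by
    rw [Matrix.mul_sub, Matrix.mul_sub, Matrix.sub_mul, Matrix.sub_mul, Matrix.trace_sub,
      Matrix.trace_sub]
    have t1 : (P * (e j * X) * e' i).trace = (P * (X * e' i) * e j).trace := by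
      rw [← Matrix.mul_assoc P (e j), hP _ (D.he j), Matrix.mul_assoc, Matrix.mul_assoc,
        Matrix.trace_mul_comm, ← Matrix.mul_assoc P]
    have t2 : (P * (e' i * X) * e j).trace = (P * (X * e j) * e' i).trace := by
      rw [← Matrix.mul_assoc P (e' i), hP _ (D.he' i), Matrix.mul_assoc, Matrix.mul_assoc,
        Matrix.trace_mul_comm, ← Matrix.mul_assoc P]
    rw [t1, t2]
    ring
  rw [this, zero_smul]

/-- The Casimir tensor belongs to a closed system. -/
theorem casP_closed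
    (hcl : ∀ n, ∀ {F : (Fin n → B) → K}, (∀ A ∈ Ann 𝓡, dM n A *ᵥ F = 0) → F ∈ 𝓡 n)
    (hκ : t2 κ ∈ 𝓡 2) (D : DBP (Ann 𝓡) P e e') : casP P e e' κ ∈ 𝓡 (2 + 2) :=
  hcl _ fun _ hA => casP_kill hP hκ D hA

end closed

/-- The Casimir tensor does not depend on the dual bases. -/
theorem casP_unique {V : Submodule K (Matrix B B K)} {P κ : Matrix B B K}
    (hP : ∀ Y ∈ V, P * Y = Y * P) {N M : ℕ}
    {e e' : Fin N → Matrix B B K} {f f' : Fin M → Matrix B B K} (D : DBP V P e e')
    (E : DBP V P f f') : casP P e e' κ = casP P f f' κ := by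
  have h1 : ∀ i, tp (t2 (P * e i * κ)) (t2 (P * e' i * κ)) =
      ∑ j, (P * e i * f' j).trace • tp (t2 (P * f j * κ)) (t2 (P * e' i * κ)) := by
    intro i
    conv_lhs => rw [E.exp _ (D.he i)]
    rw [Finset.mul_sum, Finset.sum_mul, t2_sum, tp_sum_left]
    refine Finset.sum_congr rfl fun j _ => ?_
    rw [Matrix.mul_smul, Matrix.smul_mul, t2_smul, tp_smul_left]
  have h2 : ∀ j, tp (t2 (P * f j * κ)) (t2 (P * f' j * κ)) =
      ∑ i, (P * f' j * e i).trace • tp (t2 (P * f j * κ)) (t2 (P * e' i * κ)) := by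
    intro j
    conv_lhs => rw [D.exp' hP _ (E.he' j)]
    rw [Finset.mul_sum, Finset.sum_mul, t2_sum, tp_sum_right]
    refine Finset.sum_congr rfl fun i _ => ?_
    rw [Matrix.mul_smul, Matrix.smul_mul, t2_smul, tp_smul_right]
  rw [casP, casP, cas, cas, Finset.sum_congr rfl fun i _ => h1 i,
    Finset.sum_congr rfl fun j _ => h2 j, Finset.sum_comm]
  refine Finset.sum_congr rfl fun j _ => Finset.sum_congr rfl fun i _ => ?_
  rw [trP_symm hP (D.he i)]

section pos

variable {𝓡 : ∀ n, Submodule K ((Fin n → B) → K)} {C C' : Matrix B B ℂ} {q κ P : Matrix B B K}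

open scoped ComplexOrder in
/-- The form `tr (P A B)` is nondegenerate on the annihilator. -/
lemma nondegP (hK : ∀ r : K, star (algebraMap K ℂ r) = algebraMap K ℂ r)
    (hC : C' * C = 1) (hfix : ∀ n, ∀ F ∈ 𝓡 n, pM n C *ᵥ up F = up F)
    (hqκ : q * κ = 1) (hκ : t2 κ ∈ 𝓡 2) (hpos : (Cᵀ * upM q).PosDef) (hP2 : P * P = P)
    (hPM : (upM P)ᴴ * (Cᵀ * upM q) = (Cᵀ * upM q) * upM P)
    {A : Matrix B B K} (hA : A ∈ Ann 𝓡) (hA0 : P * A ≠ 0) :
    ∃ A' ∈ Ann 𝓡, (P * A * A').trace ≠ 0 := by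
  have hC' : C * C' = 1 := mul_eq_one_comm.1 hC
  set X : Matrix B B ℂ := C * upM A * C' with hX
  have hXC : C * upM A = X * C := by
    rw [hX, Matrix.mul_assoc, hC, Matrix.mul_one]
  have hkill : ∀ n, ∀ F ∈ 𝓡 n, dM n X *ᵥ up F = 0 := by
    intro n F hF
    conv_lhs => rw [← hfix n F hF]
    rw [Matrix.mulVec_mulVec, ← dM_conj hXC, ← Matrix.mulVec_mulVec, ← upM_dM, ← up_mulVec,
      hA n F hF, up_zero, Matrix.mulVec_zero]
  -- `X` is skew
  have hup2 : up (t2 κ) = t2 (upM κ) := rfl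
  have hskew : X * upM κ + upM κ * Xᵀ = 0 := by
    have h := hkill 2 _ hκ
    rw [hup2, dM_t2] at h
    exact t2_injective h
  have hqκ' : upM q * upM κ = 1 := by
    rw [← upM_mul, hqκ]
    ext i j
    rw [upM_apply, Matrix.one_apply, Matrix.one_apply]
    split_ifs <;> simp
  have hκq' : upM κ * upM q = 1 := mul_eq_one_comm.1 hqκ'
  have hskew' : upM q * X + Xᵀ * upM q = 0 := by
    have h : upM q * (X * upM κ + upM κ * Xᵀ) * upM q = 0 := by
      rw [hskew, Matrix.mul_zero, Matrix.zero_mul]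
    rw [Matrix.mul_add, Matrix.add_mul, ← Matrix.mul_assoc, Matrix.mul_assoc (upM q * X), hκq',
      Matrix.mul_one, ← Matrix.mul_assoc (upM q) (upM κ), hqκ', Matrix.one_mul] at h
    exact h
  set M : Matrix B B ℂ := Cᵀ * upM q with hM
  have hMX0 : (upM A)ᴴ * M = -(M * X) := by
    have h1 : Xᵀ * upM q = -(upM q * X) := by
      rw [eq_neg_iff_add_eq_zero, add_comm]; exact hskew'
    calc (upM A)ᴴ * M = (upM A)ᵀ * Cᵀ * upM q := by
          rw [star_real_apply hK, hM, Matrix.mul_assoc]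
      _ = (X * C)ᵀ * upM q := by rw [← Matrix.transpose_mul, hXC]
      _ = Cᵀ * (Xᵀ * upM q) := by rw [Matrix.transpose_mul, Matrix.mul_assoc]
      _ = -(M * X) := by rw [h1, hM, Matrix.mul_neg, Matrix.mul_assoc]
  have hMX : (upM (P * A))ᴴ * M = -(M * (X * upM P)) := by
    rw [upM_mul, Matrix.conjTranspose_mul, Matrix.mul_assoc, hPM, ← Matrix.mul_assoc, hMX0,
      Matrix.neg_mul, Matrix.mul_assoc]
  obtain ⟨g, hg⟩ := exists_sqrt hpos
  have hMu : IsUnit M.det := (Matrix.isUnit_iff_isUnit_det _).1 hpos.isUnit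
  have hgu : IsUnit g.det := by
    have h : M.det = star g.det * g.det := by
      rw [hg, Matrix.det_mul, Matrix.det_conjTranspose]
    rw [h] at hMu
    exact isUnit_of_mul_isUnit_right hMu
  have hgg : g * g⁻¹ = 1 := Matrix.mul_nonsing_inv _ hgu
  have hgg' : g⁻¹ * g = 1 := Matrix.nonsing_inv_mul _ hgu
  -- the trace
  have htr : (upM (P * A) * X).trace ≠ 0 := by
    set N : Matrix B B ℂ := g * upM (P * A) * g⁻¹ with hN
    have h3 : gᴴ * g = M := hg.symm
    have h4 : (g⁻¹ * (g⁻¹)ᴴ) * M = 1 := by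
      rw [← h3, Matrix.mul_assoc, ← Matrix.mul_assoc (g⁻¹)ᴴ, ← Matrix.conjTranspose_mul, hgg,
        Matrix.conjTranspose_one, Matrix.one_mul, hgg']
    have h1 : (N * Nᴴ).trace = -(upM (P * A) * (X * upM P)).trace := by
      calc (N * Nᴴ).trace =
          (g * (upM (P * A) * (g⁻¹ * (g⁻¹)ᴴ) * (upM (P * A))ᴴ * gᴴ)).trace := by
            refine congrArg Matrix.trace ?_
            rw [hN, Matrix.conjTranspose_mul, Matrix.conjTranspose_mul]
            simp only [Matrix.mul_assoc]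
        _ = (upM (P * A) * ((g⁻¹ * (g⁻¹)ᴴ) * ((upM (P * A))ᴴ * M))).trace := by
            rw [Matrix.trace_mul_comm, ← h3]
            simp only [Matrix.mul_assoc]
        _ = -(upM (P * A) * (X * upM P)).trace := by
            rw [hMX, Matrix.mul_neg, ← Matrix.mul_assoc _ M (X * upM P), h4, Matrix.one_mul,
              Matrix.mul_neg, Matrix.trace_neg]
    have h2 : (upM (P * A) * (X * upM P)).trace = (upM (P * A) * X).trace := by
      rw [← Matrix.mul_assoc, Matrix.trace_mul_comm, ← Matrix.mul_assoc, ← upM_mul,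
        ← Matrix.mul_assoc P P A, hP2]
    intro h0
    rw [h2, h0, neg_zero] at h1
    have h5 : N = 0 := Matrix.trace_mul_conjTranspose_self_eq_zero_iff.1 h1
    apply hA0
    have h6 : upM (P * A) = 0 := by
      calc upM (P * A) = g⁻¹ * N * g := by
            rw [hN]
            simp only [Matrix.mul_assoc, hgg', Matrix.mul_one]
            rw [← Matrix.mul_assoc, hgg', Matrix.one_mul]
        _ = 0 := by rw [h5, Matrix.mul_zero, Matrix.zero_mul]
    ext i j
    have h7 := congrFun (congrFun h6 i) j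
    rw [upM_apply] at h7
    exact (algebraMap K ℂ).injective (by rw [h7]; simp)
  obtain ⟨l, hl⟩ := exists_functional (K := K) htr
  refine ⟨dnM l X, dnM_mem_Ann hkill l, ?_⟩
  have : (P * A * dnM l X).trace = l (upM (P * A) * X).trace := by
    simp only [Matrix.trace, Matrix.diag_apply, Matrix.mul_apply (M := P * A), map_sum, dnM_apply,
      Matrix.mul_apply (M := upM (P * A)), upM_apply, l_mul']
  rw [this]
  exact hl

/-- The form `tr (P A B)`. -/
def trFP (V : Submodule K (Matrix B B K)) (P : Matrix B B K) : LinearMap.BilinForm K V :=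
  LinearMap.mk₂ K (fun Y Z : V => (P * (Y : Matrix B B K) * (Z : Matrix B B K)).trace)
    (fun Y Y' Z => by simp [Matrix.add_mul, Matrix.mul_add, Matrix.trace_add])
    (fun c Y Z => by simp [Matrix.trace_smul])
    (fun Y Z Z' => by simp [Matrix.mul_add, Matrix.trace_add])
    (fun c Y Z => by simp [Matrix.trace_smul])

lemma trFP_apply (V : Submodule K (Matrix B B K)) (P : Matrix B B K) (Y Z : V) :
    trFP V P Y Z = (P * (Y : Matrix B B K) * (Z : Matrix B B K)).trace := rfl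

/-- Dual bases for the form `tr (P A B)`. -/
lemma exists_dualP {V : Submodule K (Matrix B B K)} {P : Matrix B B K}
    (hP : ∀ Y ∈ V, P * Y = Y * P)
    (hV : ∀ A ∈ V, A ≠ 0 → ∃ A' ∈ V, (P * A * A').trace ≠ 0) :
    ∃ (N : ℕ) (e e' : Fin N → Matrix B B K), DBP V P e e' := by
  have hsymm : (trFP V P).IsSymm := ⟨fun Y Z => by
    rw [trFP_apply, trFP_apply, trP_symm hP Y.2]⟩
  have hnd : (trFP V P).Nondegenerate := by
    refine hsymm.isRefl.nondegenerate_iff_separatingLeft.2 fun Y hY => ?_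
    by_contra h0
    obtain ⟨A', hA', h⟩ := hV Y Y.2 fun h => h0 (Subtype.ext h)
    exact h (hY ⟨A', hA'⟩)
  set b := Module.finBasis K V
  set b' := (trFP V P).dualBasis hnd b
  have hbb : ∀ i j, trFP V P (b i) (b' j) = if i = j then 1 else 0 := fun i j =>
    LinearMap.BilinForm.apply_dualBasis_right hnd hsymm b i j
  refine ⟨Module.finrank K V, fun i => b i, fun i => b' i, fun i => (b i).2, fun i => (b' i).2,
    fun i j => hbb i j, fun Y hY => ?_⟩
  have h1 : (⟨Y, hY⟩ : V) = ∑ i, trFP V P ⟨Y, hY⟩ (b' i) • b i := by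
    conv_lhs => rw [← b.sum_repr ⟨Y, hY⟩]
    refine Finset.sum_congr rfl fun i _ => ?_
    congr 1
    conv_rhs => rw [← b.sum_repr ⟨Y, hY⟩]
    rw [map_sum, LinearMap.sum_apply, Finset.sum_eq_single i]
    · rw [map_smul, LinearMap.smul_apply, hbb, if_pos rfl, smul_eq_mul, mul_one]
    · intro j _ hj
      rw [map_smul, LinearMap.smul_apply, hbb, if_neg hj, smul_zero]
    · intro h; exact absurd (Finset.mem_univ _) h
  have h2 := congrArg Subtype.val h1
  simpa [trFP_apply] using h2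

open scoped ComplexOrder in
/-- Dual bases of the annihilator exist. -/
theorem exists_DBP (hK : ∀ r : K, star (algebraMap K ℂ r) = algebraMap K ℂ r)
    (hC : C' * C = 1) (hfix : ∀ n, ∀ F ∈ 𝓡 n, pM n C *ᵥ up F = up F)
    (hqκ : q * κ = 1) (hpos : (Cᵀ * upM q).PosDef) (hκ : t2 κ ∈ 𝓡 2) (hP2 : P * P = P)
    (hPM : (upM P)ᴴ * (Cᵀ * upM q) = (Cᵀ * upM q) * upM P)
    (hP : ∀ Y ∈ Ann 𝓡, P * Y = Y * P) (hinj : ∀ Y ∈ Ann 𝓡, P * Y = 0 → Y = 0) :
    ∃ (N : ℕ) (e e' : Fin N → Matrix B B K), DBP (Ann 𝓡) P e e' :=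
  exists_dualP hP fun _ hA hA0 => nondegP hK hC hfix hqκ hκ hpos hP2 hPM hA
    fun h => hA0 (hinj _ hA h)

open scoped ComplexOrder in
/-- **The Casimir tensor decides.** -/
theorem casP_larsen {𝒜 : ∀ n, Submodule K ((Fin n → B) → K)}
    (hK : ∀ r : K, star (algebraMap K ℂ r) = algebraMap K ℂ r)
    (hC : C' * C = 1) (hfix : ∀ n, ∀ F ∈ 𝓡 n, pM n C *ᵥ up F = up F)
    (hqκ : q * κ = 1) (hpos : (Cᵀ * upM q).PosDef)
    (hcl : ∀ n, ∀ {F : (Fin n → B) → K}, (∀ A ∈ Ann 𝓡, dM n A *ᵥ F = 0) → F ∈ 𝓡 n)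
    (hle : ∀ n, 𝒜 n ≤ 𝓡 n) (hκ : t2 κ ∈ 𝒜 2) (hP2 : P * P = P)
    (hPM : (upM P)ᴴ * (Cᵀ * upM q) = (Cᵀ * upM q) * upM P)
    (hP : ∀ Y ∈ Ann 𝒜, P * Y = Y * P) (hinj : ∀ Y ∈ Ann 𝒜, P * Y = 0 → Y = 0)
    {N : ℕ} {e e' : Fin N → Matrix B B K} (D : DBP (Ann 𝓡) P e e')
    (hcas : casP P e e' κ ∈ 𝒜 (2 + 2))
    (hZ : ∀ Y : Matrix B B K, Y ∈ Ann 𝒜 → t2 (Y * κ) ∈ 𝓡 2 → Y ∈ Ann 𝓡) :
    Ann 𝒜 ≤ Ann 𝓡 := by
  have hκq : κ * q = 1 := mul_eq_one_comm.1 hqκ
  have hκz : t2 κ ∈ 𝓡 2 := hle 2 hκ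
  have hmono : Ann 𝓡 ≤ Ann 𝒜 := fun A hA n F hF => hA n F (hle n hF)
  have hPR : ∀ Y ∈ Ann 𝓡, P * Y = Y * P := fun Y hY => hP Y (hmono hY)
  intro A hA
  have hAskew : A * κ + κ * Aᵀ = 0 := skew_of_Ann hκ hA
  have hPAA := hP A hA
  -- the bracket with the elements of the basis
  have key : ∀ i, A * e i - e i * A ∈ Ann 𝓡 := by
    intro i
    set W : Submodule K (Matrix B B K) := (Ann 𝓡).map (LinearMap.mulLeft K P) with hW
    have hmem : P * (A * e i - e i * A) ∈ W := by
      by_contra hi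
      obtain ⟨φ, hφ, hφV⟩ := Submodule.exists_le_ker_of_notMem hi
      have h := hA _ _ hcas
      rw [casP, dM_cas _ _ hAskew] at h
      simp only [comm_bracket hPAA] at h
      have h3 := congrArg (fc φ q) h
      rw [fc_zero, fc_sum] at h3
      have h4 : ∑ j, φ (P * (A * e j - e j * A)) • t2 (P * e' j * κ) = 0 := by
        rw [← h3]
        refine Finset.sum_congr rfl fun j _ => ?_
        rw [fc_add, fc_tp φ hκq, fc_tp φ hκq]
        have : φ (P * e j) = 0 := hφV ⟨e j, D.he j, rfl⟩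
        rw [this, zero_smul, add_zero]
      have h5 : (∑ j, φ (P * (A * e j - e j * A)) • (P * e' j)) * κ = 0 := by
        apply t2_injective
        rw [Finset.sum_mul, t2_sum, t2_zero, ← h4]
        refine Finset.sum_congr rfl fun j _ => ?_
        rw [Matrix.smul_mul, t2_smul]
      have h6 : ∑ j, φ (P * (A * e j - e j * A)) • (P * e' j) = 0 := by
        have := congrArg (· * q) h5
        simpa [Matrix.mul_assoc, hκq] using this
      exact hφ (Fintype.linearIndependent_iff.1 (D.ind' hPR) _ h6 i)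
    obtain ⟨Y', hY', hYe⟩ := hmem
    have h1 : P * Y' = P * (A * e i - e i * A) := hYe
    have h2 : A * e i - e i * A - Y' = 0 := by
      refine hinj _ (Submodule.sub_mem _ (Ann_bracket hA (hmono (D.he i))) (hmono hY')) ?_
      rw [Matrix.mul_sub, h1, sub_self]
    rw [sub_eq_zero.1 h2]
    exact hY'
  have hAm : ∀ Y ∈ Ann 𝓡, A * Y - Y * A ∈ Ann 𝓡 := by
    intro Y hY
    rw [D.exp Y hY]
    have : A * ∑ i, (P * Y * e' i).trace • e i - (∑ i, (P * Y * e' i).trace • e i) * A =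
        ∑ i, (P * Y * e' i).trace • (A * e i - e i * A) := by
      rw [Finset.mul_sum, Finset.sum_mul, ← Finset.sum_sub_distrib]
      refine Finset.sum_congr rfl fun i _ => ?_
      rw [Matrix.mul_smul, Matrix.smul_mul, smul_sub]
    rw [this]
    exact Submodule.sum_mem _ fun i _ => Submodule.smul_mem _ _ (key i)
  set A1 : Matrix B B K := ∑ i, (P * A * e' i).trace • e i with hA1
  have hA1m : A1 ∈ Ann 𝓡 :=
    Submodule.sum_mem _ fun i _ => Submodule.smul_mem _ _ (D.he i)
  set A2 := A - A1 with hA2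
  have hA2A : A2 ∈ Ann 𝒜 := Submodule.sub_mem _ hA (hmono hA1m)
  have horth : ∀ Y ∈ Ann 𝓡, (P * A2 * Y).trace = 0 := by
    have h5 : ∀ j, (P * A2 * e' j).trace = 0 := by
      intro j
      rw [hA2, Matrix.mul_sub, Matrix.sub_mul, Matrix.trace_sub, hA1, Finset.mul_sum,
        Finset.sum_mul, Matrix.trace_sum]
      simp only [Matrix.mul_smul, Matrix.smul_mul, Matrix.trace_smul, D.dual, smul_eq_mul]
      simp
    intro Y hY
    rw [D.exp' hPR Y hY, Finset.mul_sum, Matrix.trace_sum]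
    refine Finset.sum_eq_zero fun j _ => ?_
    rw [Matrix.mul_smul, Matrix.trace_smul, h5, smul_zero]
  have hA2m : ∀ Y ∈ Ann 𝓡, A2 * Y - Y * A2 ∈ Ann 𝓡 := by
    intro Y hY
    have : A2 * Y - Y * A2 = (A * Y - Y * A) - (A1 * Y - Y * A1) := by
      rw [hA2, Matrix.sub_mul, Matrix.mul_sub]
      abel
    rw [this]
    exact Submodule.sub_mem _ (hAm Y hY) (Ann_bracket hA1m hY)
  have hcomm : ∀ Y ∈ Ann 𝓡, A2 * Y - Y * A2 = 0 := by
    intro Y hY
    by_contra hne
    have hne' : P * (A2 * Y - Y * A2) ≠ 0 := fun h =>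
      hne (hinj _ (Ann_bracket hA2A (hmono hY)) h)
    obtain ⟨Z, hZm, hZt⟩ := nondegP hK hC hfix hqκ hκz hpos hP2 hPM (hA2m Y hY) hne'
    apply hZt
    rw [Matrix.mul_sub, Matrix.sub_mul, Matrix.trace_sub]
    have t1 : (P * (Y * A2) * Z).trace = (P * A2 * (Z * Y)).trace := by
      rw [← Matrix.mul_assoc P Y, hPR Y hY, Matrix.mul_assoc, Matrix.mul_assoc,
        Matrix.trace_mul_comm]
      simp only [Matrix.mul_assoc]
    have t2 : (P * (A2 * Y) * Z).trace = (P * A2 * (Y * Z)).trace := by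
      simp only [Matrix.mul_assoc]
    rw [t1, t2, ← Matrix.trace_sub, ← Matrix.mul_sub]
    exact horth _ (Ann_bracket hY hZm)
  have hA2K : t2 (A2 * κ) ∈ 𝓡 2 := by
    refine hcl _ fun Y hY => ?_
    rw [dM_t2_skew (skew_of_Ann hκz hY)]
    have : Y * A2 - A2 * Y = 0 := by
      rw [← neg_sub, hcomm Y hY, neg_zero]
    rw [this, Matrix.zero_mul, t2_zero]
  have h8 := hZ A2 hA2A hA2K
  have h9 : A = A2 + A1 := by rw [hA2, sub_add_cancel]
  rw [h9]
  exact Submodule.add_mem _ h8 hA1m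

end pos

section sys

variable {𝒜 : ∀ n, Submodule K ((Fin n → B) → K)} {P : Matrix B B K} {N : ℕ}
  {e e' : Fin N → Matrix B B K}

/-- The expansion of the complex matrices which kill the tensors of the system. -/
lemma expCP (D : DBP (Ann 𝒜) P e e') {X : Matrix B B ℂ} (hX : Kills 𝒜 X) :
    X = ∑ i, (upM P * X * upM (e' i)).trace • upM (e i) := by
  have key : ∀ l : ℂ →ₗ[K] K,
      dnM l X = dnM l (∑ i, (upM P * X * upM (e' i)).trace • upM (e i)) := by
    intro l
    have h1 : dnM l X ∈ Ann 𝒜 := dnM_mem_Ann hX l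
    rw [D.exp _ h1]
    ext a b
    rw [dnM_apply, Matrix.sum_apply, Matrix.sum_apply, map_sum]
    refine Finset.sum_congr rfl fun i _ => ?_
    rw [Matrix.smul_apply, Matrix.smul_apply, upM_apply, smul_eq_mul, smul_eq_mul, l_mul]
    congr 1
    simp only [Matrix.trace, Matrix.diag_apply, Matrix.mul_apply, map_sum, dnM_apply, upM_apply,
      l_mul, l_mul', Finset.sum_mul]
  ext a b
  by_contra hne
  obtain ⟨l, hl⟩ := exists_functional (K := K) (sub_ne_zero.2 hne)
  apply hl
  rw [map_sub]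
  exact sub_eq_zero.2 (congrFun (congrFun (key l) a) b)

/-- The Casimir tensor is fixed by the matrices which fix the tensors of the system. -/
theorem casP_fixed (hP : ∀ Y ∈ Ann 𝒜, P * Y = Y * P) (D : DBP (Ann 𝒜) P e e')
    {w w' : Matrix B B ℂ} (hw : w' * w = 1)
    (hfix : ∀ n, ∀ F ∈ 𝒜 n, pM n w *ᵥ up F = up F) {κ : Matrix B B K} (hκ : t2 κ ∈ 𝒜 2)
    (hwP : w * upM P = upM P * w) :
    pM (2 + 2) w *ᵥ up (casP P e e' κ) = up (casP P e e' κ) := by
  have hw' : w * w' = 1 := mul_eq_one_comm.1 hw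
  have hwP' : w' * upM P = upM P * w' := by
    calc w' * upM P = w' * upM P * (w * w') := by rw [hw', Matrix.mul_one]
      _ = w' * (upM P * w) * w' := by simp only [Matrix.mul_assoc]
      _ = (w' * w) * upM P * w' := by rw [← hwP]; simp only [Matrix.mul_assoc]
      _ = upM P * w' := by rw [hw, Matrix.one_mul]
  have hfix' : ∀ n, ∀ F ∈ 𝒜 n, pM n w' *ᵥ up F = up F := by
    intro n F hF
    conv_lhs => rw [← hfix n F hF]
    rw [Matrix.mulVec_mulVec, ← pM_mul, hw, pM_one, Matrix.one_mulVec]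
  have hconj : ∀ {g g' : Matrix B B ℂ}, g' * g = 1 → g * g' = 1 →
      (∀ n, ∀ F ∈ 𝒜 n, pM n g *ᵥ up F = up F) → ∀ {X : Matrix B B ℂ}, Kills 𝒜 X →
      Kills 𝒜 (g * X * g') := by
    intro g g' hg hg' hgf X hX n F hF
    have h1 : g * X = (g * X * g') * g := by
      rw [Matrix.mul_assoc (g * X), hg, Matrix.mul_one]
    conv_lhs => rw [← hgf n F hF]
    rw [Matrix.mulVec_mulVec, ← dM_conj h1, ← Matrix.mulVec_mulVec, hX n F hF, Matrix.mulVec_zero]
  set κ' : Matrix B B ℂ := upM κ with hκ'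
  have hκw : w * κ' * wᵀ = κ' := by
    have h1 := hfix 2 _ hκ
    rw [up_t2, pM_t2] at h1
    exact t2_injective h1
  have hterm : ∀ Y : Matrix B B ℂ, w * (upM P * Y * κ') * wᵀ = upM P * (w * Y * w') * κ' := by
    intro Y
    calc w * (upM P * Y * κ') * wᵀ = (w * upM P) * Y * (w' * w) * κ' * wᵀ := by
          rw [hw, Matrix.mul_one]; simp only [Matrix.mul_assoc]
      _ = upM P * (w * Y * w') * (w * κ' * wᵀ) := by rw [hwP]; simp only [Matrix.mul_assoc]
      _ = upM P * (w * Y * w') * κ' := by rw [hκw]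
  have hup : up (casP P e e' κ) = ∑ i, tp (t2 (upM P * upM (e i) * κ'))
      (t2 (upM P * upM (e' i) * κ')) := by
    rw [casP, up_cas]
    refine Finset.sum_congr rfl fun i _ => ?_
    rw [upM_mul, upM_mul]
  rw [hup, Matrix.mulVec_sum]
  have h1 : ∀ i, pM (2 + 2) w *ᵥ tp (t2 (upM P * upM (e i) * κ')) (t2 (upM P * upM (e' i) * κ')) =
      ∑ j, ∑ k, ((upM P * (w * upM (e i) * w') * upM (e' j)).trace *
        (upM P * (w * upM (e' i) * w') * upM (e k)).trace) •
        tp (t2 (upM P * upM (e j) * κ')) (t2 (upM P * upM (e' k) * κ')) := by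
    intro i
    rw [pM_tp, pM_t2, pM_t2, hterm, hterm]
    have e1 : ∀ (c : Fin N → ℂ) (Z : Fin N → Matrix B B ℂ),
        t2 (upM P * (∑ j, c j • Z j) * κ') = ∑ j, c j • t2 (upM P * Z j * κ') := by
      intro c Z
      rw [Finset.mul_sum, Finset.sum_mul, t2_sum]
      refine Finset.sum_congr rfl fun j _ => ?_
      rw [Matrix.mul_smul, Matrix.smul_mul]
      rfl
    have e2 := e1 (fun j => (upM P * (w * upM (e i) * w') * upM (e' j)).trace)
      (fun j => upM (e j))
    have e3 := e1 (fun j => (upM P * (w * upM (e' i) * w') * upM (e j)).trace)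
      (fun j => upM (e' j))
    rw [← expCP D (hconj hw hw' hfix (kills_upM (D.he i)))] at e2
    rw [← expCP (D.swap hP) (hconj hw hw' hfix (kills_upM (D.he' i)))] at e3
    rw [e2, e3, tp_sum_left]
    refine Finset.sum_congr rfl fun j _ => ?_
    rw [tp_sum_right]
    refine Finset.sum_congr rfl fun k _ => ?_
    rw [tp_smul_left, tp_smul_right, smul_smul]
  have h2 : ∀ j k, ∑ i, (upM P * (w * upM (e i) * w') * upM (e' j)).trace *
      (upM P * (w * upM (e' i) * w') * upM (e k)).trace = if k = j then 1 else 0 := by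
    intro j k
    have hR := hconj hw' hw hfix' (kills_upM (D.he k))
    have h3 := congrArg (fun M => (upM P * M * (w' * upM (e' j) * w)).trace) (expCP D hR)
    simp only [Finset.mul_sum, Finset.sum_mul, Matrix.trace_sum, Matrix.mul_smul, Matrix.smul_mul,
      Matrix.trace_smul, smul_eq_mul] at h3
    have h4 : (upM P * (w' * upM (e k) * w) * (w' * upM (e' j) * w)).trace =
        if k = j then 1 else 0 := by
      calc (upM P * (w' * upM (e k) * w) * (w' * upM (e' j) * w)).trace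
          = ((upM P * w') * (upM (e k) * (w * w') * upM (e' j)) * w).trace := by
            simp only [Matrix.mul_assoc]
        _ = (w' * (upM P * upM (e k) * upM (e' j)) * w).trace := by
            rw [← hwP', hw', Matrix.mul_one]; simp only [Matrix.mul_assoc]
        _ = (upM P * upM (e k) * upM (e' j)).trace := by
            rw [Matrix.trace_mul_comm, ← Matrix.mul_assoc, hw', Matrix.one_mul]
        _ = if k = j then 1 else 0 := by
            rw [← upM_mul, ← upM_mul, upM_trace, D.dual]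
            split_ifs <;> simp
    rw [← h4, h3]
    refine Finset.sum_congr rfl fun i _ => ?_
    rw [mul_comm]
    refine congrArg₂ (· * ·) ?_ ?_
    · calc (upM P * (w * upM (e' i) * w') * upM (e k)).trace
          = ((w * upM P) * (upM (e' i) * w' * upM (e k))).trace := by
            rw [hwP]; simp only [Matrix.mul_assoc]
        _ = (upM P * upM (e' i) * (w' * upM (e k) * w)).trace := by
            rw [Matrix.mul_assoc w, Matrix.trace_mul_comm w]
            simp only [Matrix.mul_assoc]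
        _ = (upM P * (w' * upM (e k) * w) * upM (e' i)).trace := by
            have hc : upM P * upM (e' i) = upM (e' i) * upM P := by
              rw [← upM_mul, hP _ (D.he' i), upM_mul]
            rw [hc, Matrix.mul_assoc, Matrix.trace_mul_comm]
    · calc (upM P * (w * upM (e i) * w') * upM (e' j)).trace
          = ((w * upM P) * (upM (e i) * w' * upM (e' j))).trace := by
            rw [hwP]; simp only [Matrix.mul_assoc]
        _ = (upM P * upM (e i) * (w' * upM (e' j) * w)).trace := by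
            rw [Matrix.mul_assoc w, Matrix.trace_mul_comm w]
            simp only [Matrix.mul_assoc]
  rw [Finset.sum_congr rfl fun i _ => h1 i, Finset.sum_comm]
  refine Finset.sum_congr rfl fun j _ => ?_
  rw [Finset.sum_comm]
  have h5 : ∀ k, (∑ i, ((upM P * (w * upM (e i) * w') * upM (e' j)).trace *
      (upM P * (w * upM (e' i) * w') * upM (e k)).trace) •
      tp (t2 (upM P * upM (e j) * κ')) (t2 (upM P * upM (e' k) * κ'))) =
      (if k = j then (1 : ℂ) else 0) •
        tp (t2 (upM P * upM (e j) * κ')) (t2 (upM P * upM (e' k) * κ')) := by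
    intro k
    rw [← h2 j k, Finset.sum_smul]
  rw [Finset.sum_congr rfl fun k _ => h5 k]
  simp only [ite_smul, one_smul, zero_smul]
  rw [Finset.sum_ite_eq']
  simp

open scoped ComplexOrder in
/-- **The Casimir tensor of the annihilator of a polarised system belongs to the system.** -/
theorem casP_mem_sys {C : Matrix B B ℂ} {q κ : Matrix B B K}
    (hK : ∀ r : K, star (algebraMap K ℂ r) = algebraMap K ℂ r) (hpos : (Cᵀ * upM q).PosDef)
    (𝒜 : RSys B K q) (hfix : ∀ n, ∀ F ∈ 𝒜.C n, pM n C *ᵥ up F = up F) (hqκ : q * κ = 1)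
    (hκ : t2 κ ∈ 𝒜.C 2) (hPκ : t2 (P * κ) ∈ 𝒜.C 2) (hP : ∀ Y ∈ Ann 𝒜.C, P * Y = Y * P)
    {e e' : Fin N → Matrix B B K} (D : DBP (Ann 𝒜.C) P e e') :
    casP P e e' κ ∈ 𝒜.C (2 + 2) := by
  obtain ⟨g, hg⟩ := exists_sqrt hpos
  have hMu : IsUnit (Cᵀ * upM q).det := (Matrix.isUnit_iff_isUnit_det _).1 hpos.isUnit
  have hgu : IsUnit g.det := by
    have h : (Cᵀ * upM q).det = star g.det * g.det := by
      rw [hg, Matrix.det_mul, Matrix.det_conjTranspose]
    rw [h] at hMu
    exact isUnit_of_mul_isUnit_right hMu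
  have hgg : g * g⁻¹ = 1 := Matrix.mul_nonsing_inv _ hgu
  have hgg' : g⁻¹ * g = 1 := Matrix.nonsing_inv_mul _ hgu
  have hqκ' : upM q * upM κ = 1 := by
    rw [← upM_mul, hqκ]
    ext i j
    rw [upM_apply, Matrix.one_apply, Matrix.one_apply]
    split_ifs <;> simp
  have hκq' : upM κ * upM q = 1 := mul_eq_one_comm.1 hqκ'
  set 𝒯 := toT 𝒜 hK hg hfix with h𝒯
  have hmem : ∀ n, ∀ F ∈ 𝒜.C n, pM n g *ᵥ up F ∈ 𝒯.C n := fun n F hF => ⟨_, up_mem hF, rfl⟩
  have h1 : pM (2 + 2) g *ᵥ up (casP P e e' κ) ∈ 𝒯.C (2 + 2) := by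
    rw [TSys.mem_C_iff]
    intro u hu
    set w : Matrix B B ℂ := g⁻¹ * (u : Matrix B B ℂ) * g with hw
    set w' : Matrix B B ℂ := g⁻¹ * (u : Matrix B B ℂ)ᴴ * g with hw'
    have huu : (u : Matrix B B ℂ)ᴴ * (u : Matrix B B ℂ) = 1 := by
      have := (Unitary.mem_iff.1 u.2).1
      rwa [Matrix.star_eq_conjTranspose] at this
    have hww : w' * w = 1 := by
      calc w' * w = g⁻¹ * (u : Matrix B B ℂ)ᴴ * (g * g⁻¹) * (u : Matrix B B ℂ) * g := by
            rw [hw, hw']; simp only [Matrix.mul_assoc]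
        _ = 1 := by
            rw [hgg, Matrix.mul_one, Matrix.mul_assoc g⁻¹, huu, Matrix.mul_one, hgg']
    have hgw : g * w = (u : Matrix B B ℂ) * g := by
      rw [hw, ← Matrix.mul_assoc, ← Matrix.mul_assoc, hgg, Matrix.one_mul]
    have hwfix : ∀ n, ∀ F ∈ 𝒜.C n, pM n w *ᵥ up F = up F := by
      intro n F hF
      apply pM_mulVec_injective hgg' n
      change pM n g *ᵥ (pM n w *ᵥ up F) = pM n g *ᵥ up F
      rw [Matrix.mulVec_mulVec, ← pM_mul, hgw, pM_mul, ← Matrix.mulVec_mulVec]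
      have h2 := hu n _ (hmem n F hF)
      rwa [rho_apply] at h2
    have hκw : w * upM κ * wᵀ = upM κ := by
      have h1 := hwfix 2 _ hκ
      rw [up_t2, pM_t2] at h1
      exact t2_injective h1
    have hPκw : w * (upM P * upM κ) * wᵀ = upM P * upM κ := by
      have h1 := hwfix 2 _ hPκ
      rw [up_t2, pM_t2, upM_mul] at h1
      exact t2_injective h1
    have hwP : w * upM P = upM P * w := by
      have h2 : w * upM P * (upM κ * wᵀ) = upM P * w * (upM κ * wᵀ) := by
        calc w * upM P * (upM κ * wᵀ) = w * (upM P * upM κ) * wᵀ := by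
              simp only [Matrix.mul_assoc]
          _ = upM P * (w * upM κ * wᵀ) := by rw [hPκw, hκw]
          _ = upM P * w * (upM κ * wᵀ) := by simp only [Matrix.mul_assoc]
      have h3 : (upM κ * wᵀ) * (w'ᵀ * upM q) = 1 := by
        calc (upM κ * wᵀ) * (w'ᵀ * upM q) = upM κ * (wᵀ * w'ᵀ) * upM q := by
              simp only [Matrix.mul_assoc]
          _ = 1 := by rw [← Matrix.transpose_mul, hww, Matrix.transpose_one, Matrix.mul_one, hκq']
      have h4 := congrArg (· * (w'ᵀ * upM q)) h2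
      simpa only [Matrix.mul_assoc _ (upM κ * wᵀ), h3, Matrix.mul_one] using h4
    have h3 := casP_fixed hP D hww hwfix hκ hwP
    rw [rho_apply, Matrix.mulVec_mulVec, ← pM_mul, ← hgw, pM_mul, ← Matrix.mulVec_mulVec, h3]
  obtain ⟨y, hy, hy'⟩ := h1
  have h2 : y = up (casP P e e' κ) := pM_mulVec_injective hgg' (2 + 2) hy'
  rw [h2] at hy
  exact mem_of_up hy

end sys

end Pool.Agent.Q67.TB
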