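import Pool.Agent.Q67.TB.Main
import Pool.Agent.Q67.TB.MatP

/-!
# The Casimir class of a direct summand of the cohomology decides
-/

set_option autoImplicit false
set_option linter.unusedSectionVars false

open CategoryTheory AlgebraicGeometry

universe u v

namespace Pool.Agent.Q67.TG

open Pool.Agent.H914 Pool.Agent.H914.VarClass Pool.Agent.H914.VarClass.Obj
  Pool.Agent.H914.WeilCohomology
open Pool.Agent.Y133.Half hiding prj extOp_xp
open Pool.Agent.Q67.Det Pool.Agent.Q67.TK Pool.Agent.Q67.TB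
open Pool.Agent.Y121.AH
open scoped Matrix

variable {k : Type u} [Field k] {𝒱 : VarClass k} {ops : CycleOps 𝒱} {T : HodgeTheory ops}
  {X Y Z : 𝒱.Obj}

/-- Dual bases of the Lie algebra of the operators which kill the classes of the system, for the
trace on the image of the projector. -/
structure DualBP (S : Sys T.W) (X : 𝒱.Obj) (π : Module.End T.W.K (T.W.H X)) {N : ℕ}
    (e e' : Fin N → Module.End T.W.K (T.W.H X)) : Prop where
  he : ∀ i, KillsAll S X (e i)
  he' : ∀ i, KillsAll S X (e' i)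
  dual : ∀ i j, LinearMap.trace T.W.K (T.W.H X) (π * e i * e' j) = if i = j then 1 else 0
  sp : ∀ A, KillsAll S X A → A ∈ Submodule.span T.W.K (Set.range e)

/-- Dual bases of the image of the projector. -/
structure DualC (π uu : Module.End T.W.K (T.W.H X)) {r : ℕ} (w w' : Fin r → T.W.H X) : Prop where
  mem : ∀ a, π (w a) = w a ∧ π (w' a) = w' a
  sp : ∀ x, π x ∈ Submodule.span T.W.K (Set.range w)
  dual : ∀ a b, T.W.tr X (w' a * uu (w b)) = if a = b then 1 else 0

/-- The Casimir class. -/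
def IsCasP (S : Sys T.W) (X : 𝒱.Obj) (π uu : Module.End T.W.K (T.W.H X))
    (c : T.W.H ((X.prod X).prod (X.prod X))) : Prop :=
  ∃ (N : ℕ) (e e' : Fin N → Module.End T.W.K (T.W.H X)) (r : ℕ) (w w' : Fin r → T.W.H X),
    DualBP S X π e e' ∧ DualC π uu w w' ∧
      c = ∑ i, xp T.W (∑ a, xp T.W (e i (w a)) (w' a)) (∑ a, xp T.W (e' i (w a)) (w' a))

section tens

variable {n : ℕ} {v : Module.Basis (Fin n) T.W.K (T.W.H X)}
  {π uu : Module.End T.W.K (T.W.H X)}

lemma DualBP.db {S : Sys T.W} {N : ℕ} {e e' : Fin N → Module.End T.W.K (T.W.H X)}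
    (D : DualBP S X π e e') :
    DBP (Ann (Cs S v)) (mt v π) (fun i => mt v (e i)) (fun i => mt v (e' i)) := by
  have hdual : ∀ i j, (mt v π * mt v (e i) * mt v (e' j)).trace = if i = j then 1 else 0 := by
    intro i j
    rw [← D.dual i j, ← mt_mul, ← mt_mul, LinearMap.trace_eq_matrix_trace T.W.K v]
    rfl
  refine ⟨fun i => (killsAll_iff (v := v)).1 (D.he i), fun i => (killsAll_iff (v := v)).1 (D.he' i),
    hdual, fun Y hY => ?_⟩
  have htoLin : mt v (Matrix.toLin v v Y) = Y := LinearMap.toMatrix_toLin v v Y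
  have h1 : KillsAll S X (Matrix.toLin v v Y) := by
    rw [killsAll_iff (v := v), htoLin]; exact hY
  obtain ⟨c, hc⟩ := (Submodule.mem_span_range_iff_exists_fun T.W.K).1 (D.sp _ h1)
  have h2 : Y = ∑ i, c i • mt v (e i) := by
    rw [← htoLin, ← hc, mt, map_sum]
    refine Finset.sum_congr rfl fun i _ => ?_
    rw [map_smul]
    rfl
  have h3 : ∀ j, (mt v π * Y * mt v (e' j)).trace = c j := by
    intro j
    rw [h2, Finset.mul_sum, Finset.sum_mul, Matrix.trace_sum]
    simp only [Matrix.mul_smul, Matrix.smul_mul, Matrix.trace_smul, hdual, smul_eq_mul]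
    simp
  conv_lhs => rw [h2]
  exact Finset.sum_congr rfl fun i _ => by rw [h3]

lemma DualBP.of_db {S : Sys T.W} {N : ℕ} {e e' : Fin N → Matrix (Fin n) (Fin n) T.W.K}
    (D : DBP (Ann (Cs S v)) (mt v π) e e') :
    DualBP S X π (fun i => Matrix.toLin v v (e i)) (fun i => Matrix.toLin v v (e' i)) := by
  have htoLin : ∀ Y, mt v (Matrix.toLin v v Y) = Y := fun Y => LinearMap.toMatrix_toLin v v Y
  refine ⟨fun i => ?_, fun i => ?_, fun i j => ?_, fun A hA => ?_⟩
  · rw [killsAll_iff (v := v), htoLin]; exact D.he i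
  · rw [killsAll_iff (v := v), htoLin]; exact D.he' i
  · rw [LinearMap.trace_eq_matrix_trace T.W.K v]
    change (mt v (π * Matrix.toLin v v (e i) * Matrix.toLin v v (e' j))).trace = _
    rw [mt_mul, mt_mul, htoLin, htoLin, D.dual]
  · have h1 := (killsAll_iff (v := v)).1 hA
    have h2 := congrArg (Matrix.toLin v v) (D.exp _ h1)
    rw [mt, Matrix.toLin_toMatrix, map_sum] at h2
    rw [h2]
    refine Submodule.sum_mem _ fun i _ => ?_
    rw [map_smul]
    exact Submodule.smul_mem _ _ (Submodule.subset_span ⟨i, rfl⟩)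

lemma cM2_add (M N : Matrix (Fin n) (Fin n) T.W.K) : cM2 v (M + N) = cM2 v M + cM2 v N :=
  PP_add _ _ _

lemma cM2_zero : cM2 v (0 : Matrix (Fin n) (Fin n) T.W.K) = 0 := PP_zero _

lemma cM2_sum {ι : Type*} (s : Finset ι) (M : ι → Matrix (Fin n) (Fin n) T.W.K) :
    cM2 v (∑ i ∈ s, M i) = ∑ i ∈ s, cM2 v (M i) := by
  classical
  induction s using Finset.induction_on with
  | empty => rw [Finset.sum_empty, Finset.sum_empty, cM2_zero]
  | insert a s ha ih => rw [Finset.sum_insert ha, Finset.sum_insert ha, cM2_add, ih]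

/-- The matrix of an external product. -/
lemma xp_eq_cM2 (x y : T.W.H X) :
    (xp T.W x y : T.W.H (X.prod X)) = cM2 v (Matrix.of fun a b => v.repr x a * v.repr y b) := by
  have h1 : cM2 v (Matrix.of fun a b => v.repr x a * v.repr y b) =
      ∑ a, ∑ b, (v.repr x a * v.repr y b) • (xp T.W (v a) (v b) : T.W.H (X.prod X)) :=
    PP_two _
  rw [h1]
  conv_lhs => rw [← v.sum_repr x, ← v.sum_repr y]
  simp only [xp, map_sum, map_smul, Finset.sum_mul_sum, smul_mul_smul_comm]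

/-- The class of an operator on the image of the projector. -/
lemma sum_xp_w (hq : qM v uu * (qM v uu)⁻¹ = 1)
    (hsym : ∀ x y, T.W.tr X (π x * uu y) = T.W.tr X (x * uu (π y)))
    {r : ℕ} {w w' : Fin r → T.W.H X} (D : DualC π uu w w') {φ : Module.End T.W.K (T.W.H X)}
    (hφ : π * φ = φ * π) :
    (∑ a, xp T.W (φ (w a)) (w' a) : T.W.H (X.prod X)) =
      cM2 v (mt v π * mt v φ * (qM v uu)⁻¹) := by
  -- the projector in terms of the bases
  have hπ : ∀ y, ∑ a, T.W.tr X (w' a * uu y) • w a = π y := by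
    intro y
    obtain ⟨c, hc⟩ := (Submodule.mem_span_range_iff_exists_fun T.W.K).1 (D.sp y)
    have h1 : ∀ a, T.W.tr X (w' a * uu y) = c a := by
      intro a
      rw [← (D.mem a).2, hsym, ← hc, map_sum, Finset.mul_sum, map_sum]
      simp only [map_smul, mul_smul_comm, D.dual, smul_eq_mul]
      simp
    rw [← hc]
    exact Finset.sum_congr rfl fun a _ => by rw [h1]
  set M : Matrix (Fin n) (Fin n) T.W.K :=
    ∑ a, Matrix.of fun b c => v.repr (φ (w a)) b * v.repr (w' a) c with hM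
  have h1 : (∑ a, xp T.W (φ (w a)) (w' a) : T.W.H (X.prod X)) = cM2 v M := by
    rw [hM, cM2_sum]
    exact Finset.sum_congr rfl fun a _ => xp_eq_cM2 _ _
  have h2 : M * qM v uu = mt v (φ * π) := by
    ext b c
    have h3 : mt v (φ * π) b c = v.repr (φ (π (v c))) b := by
      rw [mt, LinearMap.toMatrix_apply]; rfl
    rw [h3, ← hπ (v c), map_sum, map_sum, Finsupp.coe_finsetSum, Finset.sum_apply, hM,
      Finset.sum_mul, Matrix.sum_apply]
    refine Finset.sum_congr rfl fun a _ => ?_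
    rw [map_smul, map_smul, Finsupp.smul_apply, Matrix.mul_apply, smul_eq_mul]
    have h4 : T.W.tr X (w' a * uu (v c)) = ∑ d, v.repr (w' a) d * qM v uu d c := by
      conv_lhs => rw [← v.sum_repr (w' a), Finset.sum_mul, map_sum]
      refine Finset.sum_congr rfl fun d _ => ?_
      rw [smul_mul_assoc, map_smul, smul_eq_mul]
      rfl
    rw [h4, Finset.sum_mul]
    refine Finset.sum_congr rfl fun d _ => ?_
    rw [Matrix.of_apply]
    ring
  have h5 : M = mt v π * mt v φ * (qM v uu)⁻¹ := by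
    calc M = M * (qM v uu * (qM v uu)⁻¹) := by rw [hq, Matrix.mul_one]
      _ = mt v π * mt v φ * (qM v uu)⁻¹ := by rw [← Matrix.mul_assoc, h2, ← hφ, mt_mul]
  rw [h1, h5]

/-- Dual bases of the image of the projector exist. -/
lemma exists_dualC (hq : qM v uu * (qM v uu)⁻¹ = 1) (hπ2 : π * π = π)
    (hsym : ∀ x y, T.W.tr X (π x * uu y) = T.W.tr X (x * uu (π y))) :
    ∃ (r : ℕ) (w w' : Fin r → T.W.H X), DualC π uu w w' := by
  have hκq : (qM v uu)⁻¹ * qM v uu = 1 := mul_eq_one_comm.1 hq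
  set b := Module.finBasis T.W.K (LinearMap.range π) with hb
  have hfun : ∀ f : T.W.H X →ₗ[T.W.K] T.W.K, ∃ x : T.W.H X, ∀ y, T.W.tr X (x * uu y) = f y := by
    intro f
    refine ⟨∑ d, (∑ c, f (v c) * (qM v uu)⁻¹ c d) • v d, ?_⟩
    have h1 : T.W.tr X ∘ₗ LinearMap.mulLeft T.W.K
        (∑ d, (∑ c, f (v c) * (qM v uu)⁻¹ c d) • v d) ∘ₗ uu = f := by
      refine v.ext fun a => ?_
      change T.W.tr X ((∑ d, (∑ c, f (v c) * (qM v uu)⁻¹ c d) • v d) * uu (v a)) = f (v a)
      rw [Finset.sum_mul, map_sum]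
      have h2 : ∀ d, T.W.tr X ((∑ c, f (v c) * (qM v uu)⁻¹ c d) • v d * uu (v a)) =
          ∑ c, f (v c) * ((qM v uu)⁻¹ c d * qM v uu d a) := by
        intro d
        rw [smul_mul_assoc, map_smul, smul_eq_mul, Finset.sum_mul]
        refine Finset.sum_congr rfl fun c _ => ?_
        rw [mul_assoc]
        rfl
      rw [Finset.sum_congr rfl fun d _ => h2 d, Finset.sum_comm]
      have h3 : ∀ c, ∑ d, f (v c) * ((qM v uu)⁻¹ c d * qM v uu d a) =
          f (v c) * (1 : Matrix (Fin n) (Fin n) T.W.K) c a := by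
        intro c
        rw [← hκq, Matrix.mul_apply, Finset.mul_sum]
      rw [Finset.sum_congr rfl fun c _ => h3 c, Finset.sum_eq_single a]
      · rw [Matrix.one_apply_eq, mul_one]
      · intro c _ hc
        rw [Matrix.one_apply_ne hc, mul_zero]
      · intro h; exact absurd (Finset.mem_univ _) h
    intro y
    exact congrArg (fun g : T.W.H X →ₗ[T.W.K] T.W.K => g y) h1
  have hπw : ∀ x : LinearMap.range π, π x = x := by
    rintro ⟨_, y, rfl⟩
    exact congrArg (fun g : Module.End T.W.K (T.W.H X) => g y) hπ2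
  choose x hx using fun a => hfun (b.coord a ∘ₗ π.rangeRestrict)
  refine ⟨_, fun a => (b a : T.W.H X), fun a => π (x a), fun a => ⟨hπw _, ?_⟩, fun y => ?_,
    fun a c => ?_⟩
  · exact congrArg (fun g : Module.End T.W.K (T.W.H X) => g (x a)) hπ2
  · have h1 := congrArg Subtype.val (b.sum_repr (π.rangeRestrict y))
    rw [Submodule.coe_sum] at h1
    have h2 : ((π.rangeRestrict y : LinearMap.range π) : T.W.H X) = π y := rfl
    rw [← h2, ← h1]
    exact Submodule.sum_mem _ fun a _ => Submodule.smul_mem _ _ (Submodule.subset_span ⟨a, rfl⟩)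
  · rw [hsym, hπw, hx]
    have h1 : π.rangeRestrict (b c : T.W.H X) = b c := Subtype.ext (hπw (b c))
    rw [LinearMap.comp_apply, h1, Module.Basis.coord_apply, Module.Basis.repr_self,
      Finsupp.single_apply]
    by_cases h : a = c
    · rw [if_pos h, if_pos h.symm]
    · rw [if_neg h, if_neg (Ne.symm h)]

end tens

section main

variable {Q R : ClassPred T.W} {P : PolData T Q.sys X} {π : Module.End T.W.K (T.W.H X)}

/-- A direct summand of the cohomology on which the Lie algebra acts faithfully. -/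
structure Summ (P : PolData T Q.sys X) (π : Module.End T.W.K (T.W.H X)) : Prop where
  op : π ∈ Q.sys.Op X X
  idem : π * π = π
  symm : ∀ x y, T.W.tr X (π x * P.uu y) = T.W.tr X (x * P.uu (π y))
  inj : ∀ D : Module.End T.W.K (T.W.H X), KillsAll Q.sys X D → π * D = 0 → D = 0

variable (H : Summ P π)
  (hQR : ∀ {Z : 𝒱.Obj} {j : ℕ} {c : T.W.H Z}, Q.P Z j c → R.P Z j c)

include H

lemma Summ.comm {A : Module.End T.W.K (T.W.H X)} (hA : KillsAll Q.sys X A) : π * A = A * π := by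
  have := charZero_K T
  exact (P.nd.comm_op hA H.op).symm

lemma Summ.commM {n : ℕ} {v : Module.Basis (Fin n) T.W.K (T.W.H X)}
    {Y : Matrix (Fin n) (Fin n) T.W.K} (hY : Y ∈ Ann (Cs Q.sys v)) :
    mt v π * Y = Y * mt v π := by
  have htoLin : mt v (Matrix.toLin v v Y) = Y := LinearMap.toMatrix_toLin v v Y
  have h1 : KillsAll Q.sys X (Matrix.toLin v v Y) := by
    rw [killsAll_iff (v := v), htoLin]; exact hY
  have h2 := congrArg (mt v) (H.comm h1)
  rwa [mt_mul, mt_mul, htoLin] at h2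

lemma Summ.injM {n : ℕ} {v : Module.Basis (Fin n) T.W.K (T.W.H X)}
    {Y : Matrix (Fin n) (Fin n) T.W.K} (hY : Y ∈ Ann (Cs Q.sys v)) (h : mt v π * Y = 0) :
    Y = 0 := by
  have htoLin : mt v (Matrix.toLin v v Y) = Y := LinearMap.toMatrix_toLin v v Y
  have h1 : KillsAll Q.sys X (Matrix.toLin v v Y) := by
    rw [killsAll_iff (v := v), htoLin]; exact hY
  have h2 : π * Matrix.toLin v v Y = 0 := by
    apply mt_inj (v := v)
    rw [mt_mul, htoLin, h, mt, map_zero]
  rw [← htoLin, H.inj _ h1 h2, mt, map_zero]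

lemma Summ.idemM {n : ℕ} {v : Module.Basis (Fin n) T.W.K (T.W.H X)} :
    mt v π * mt v π = mt v π := by
  rw [← mt_mul, H.idem]

lemma Summ.kapM {n : ℕ} {v : Module.Basis (Fin n) T.W.K (T.W.H X)} {d : Fin n → ℕ}
    (hd : ∀ b, v b ∈ T.W.gr X (d b)) : t2 (mt v π * (qM v P.uu)⁻¹) ∈ Cs Q.sys v 2 :=
  (P.op_iff (R := Q.sys) (fun _ => le_rfl) hd π).2 H.op

open scoped ComplexOrder in
lemma Summ.hermM {n : ℕ} {v : Module.Basis (Fin n) T.W.K (T.W.H X)} {d : Fin n → ℕ}
    (hd : ∀ b, v b ∈ T.W.gr X (d b)) :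
    (upM (mt v π))ᴴ * ((cM v)ᵀ * upM (qM v P.uu)) = ((cM v)ᵀ * upM (qM v P.uu)) * upM (mt v π) := by
  have hqκ := P.q_kap (v := v)
  have hqκ' : (upM (qM v P.uu) : Matrix (Fin n) (Fin n) ℂ) * upM (qM v P.uu)⁻¹ = 1 := by
    rw [← upM_mul, hqκ]
    ext i j
    rw [upM_apply, Matrix.one_apply, Matrix.one_apply]
    split_ifs <;> simp
  have hκq' : (upM (qM v P.uu)⁻¹ : Matrix (Fin n) (Fin n) ℂ) * upM (qM v P.uu) = 1 :=
    mul_eq_one_comm.1 hqκ'
  -- the projector commutes with the Weil operator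
  have hw1 : cM v * upM (qM v P.uu)⁻¹ * (cM v)ᵀ = upM (qM v P.uu)⁻¹ := by
    have h1 := cM_fix v (P.Cs_le 2 (kap_mem hd P.mem P.q_kap))
    rw [up_t2, pM_t2] at h1
    exact t2_injective h1
  have hw2 : cM v * (upM (mt v π) * upM (qM v P.uu)⁻¹) * (cM v)ᵀ =
      upM (mt v π) * upM (qM v P.uu)⁻¹ := by
    have h1 := cM_fix v (P.Cs_le 2 (H.kapM hd))
    rw [up_t2, pM_t2, upM_mul] at h1
    exact t2_injective h1
  have hpos := posDef_of_pol (v := v) P.pol
  have hMu : IsUnit ((cM v)ᵀ * upM (qM v P.uu)).det :=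
    (Matrix.isUnit_iff_isUnit_det _).1 hpos.isUnit
  have hCu : IsUnit (cM v)ᵀ.det := by
    rw [Matrix.det_mul] at hMu
    exact isUnit_of_mul_isUnit_left hMu
  have hCC : (cM v)ᵀ * ((cM v)ᵀ)⁻¹ = 1 := Matrix.mul_nonsing_inv _ hCu
  have hcomm : cM v * upM (mt v π) = upM (mt v π) * cM v := by
    have h2 : cM v * upM (mt v π) * (upM (qM v P.uu)⁻¹ * (cM v)ᵀ) =
        upM (mt v π) * cM v * (upM (qM v P.uu)⁻¹ * (cM v)ᵀ) := by
      calc cM v * upM (mt v π) * (upM (qM v P.uu)⁻¹ * (cM v)ᵀ)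
          = cM v * (upM (mt v π) * upM (qM v P.uu)⁻¹) * (cM v)ᵀ := by
            simp only [Matrix.mul_assoc]
        _ = upM (mt v π) * (cM v * upM (qM v P.uu)⁻¹ * (cM v)ᵀ) := by rw [hw2, hw1]
        _ = upM (mt v π) * cM v * (upM (qM v P.uu)⁻¹ * (cM v)ᵀ) := by
            simp only [Matrix.mul_assoc]
    have h3 : (upM (qM v P.uu)⁻¹ * (cM v)ᵀ) * (((cM v)ᵀ)⁻¹ * upM (qM v P.uu)) = 1 := by
      calc (upM (qM v P.uu)⁻¹ * (cM v)ᵀ) * (((cM v)ᵀ)⁻¹ * upM (qM v P.uu))
          = upM (qM v P.uu)⁻¹ * ((cM v)ᵀ * ((cM v)ᵀ)⁻¹) * upM (qM v P.uu) := by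
            simp only [Matrix.mul_assoc]
        _ = 1 := by rw [hCC, Matrix.mul_one, hκq']
    have h4 := congrArg (· * (((cM v)ᵀ)⁻¹ * upM (qM v P.uu))) h2
    simpa only [Matrix.mul_assoc _ (upM (qM v P.uu)⁻¹ * (cM v)ᵀ), h3, Matrix.mul_one] using h4
  -- the projector is symmetric
  have hsym : (mt v π)ᵀ * qM v P.uu = qM v P.uu * mt v π := by
    ext a b
    rw [Matrix.mul_apply, Matrix.mul_apply]
    have e1 : T.W.tr X (π (v a) * P.uu (v b)) = ∑ c, (mt v π)ᵀ a c * qM v P.uu c b := by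
      conv_lhs => rw [mt_spec v π a, Finset.sum_mul, map_sum]
      refine Finset.sum_congr rfl fun c _ => ?_
      rw [smul_mul_assoc, map_smul, smul_eq_mul]
      rfl
    have e2 : T.W.tr X (v a * P.uu (π (v b))) = ∑ c, qM v P.uu a c * mt v π c b := by
      conv_lhs => rw [mt_spec v π b, map_sum, Finset.mul_sum, map_sum]
      refine Finset.sum_congr rfl fun c _ => ?_
      rw [map_smul, mul_smul_comm, map_smul, smul_eq_mul, mul_comm, qM]
    rw [← e1, ← e2, H.symm]
  calc (upM (mt v π))ᴴ * ((cM v)ᵀ * upM (qM v P.uu))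
      = (cM v * upM (mt v π))ᵀ * upM (qM v P.uu) := by
        rw [star_real_apply (real_K T), ← Matrix.mul_assoc, ← Matrix.transpose_mul]
    _ = (cM v)ᵀ * ((upM (mt v π))ᵀ * upM (qM v P.uu)) := by
        rw [hcomm, Matrix.transpose_mul, Matrix.mul_assoc]
    _ = (cM v)ᵀ * upM ((mt v π)ᵀ * qM v P.uu) := by rw [upM_mul]; rfl
    _ = ((cM v)ᵀ * upM (qM v P.uu)) * upM (mt v π) := by
        rw [hsym, upM_mul, Matrix.mul_assoc]

include hQR

lemma killsQ {A : Module.End T.W.K (T.W.H X)} (hA : KillsAll R.sys X A) : KillsAll Q.sys X A :=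
  fun m c hc => hA m c (ClassPred.sys_le hQR _ hc)

/-- The Casimir class in terms of tensors. -/
lemma casP_tens {n : ℕ} {v : Module.Basis (Fin n) T.W.K (T.W.H X)}
    {c : T.W.H ((X.prod X).prod (X.prod X))}
    (hc : IsCasP R.sys X π P.uu c) : ∃ (N : ℕ) (e e' : Fin N → Matrix (Fin n) (Fin n) T.W.K),
      DBP (Ann (Cs R.sys v)) (mt v π) e e' ∧
      c = PP v (pr4 X) (casP (mt v π) e e' (qM v P.uu)⁻¹) := by
  obtain ⟨N, e, e', r, w, w', D, E, rfl⟩ := hc
  refine ⟨N, _, _, D.db, ?_⟩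
  have key : ∀ (s : Finset (Fin N)) (F : Fin N → (Fin (2 + 2) → Fin n) → T.W.K),
      PP v (pr4 X) (∑ i ∈ s, F i) = ∑ i ∈ s, PP v (pr4 X) (F i) := by
    classical
    intro s F
    induction s using Finset.induction_on with
    | empty => rw [Finset.sum_empty, Finset.sum_empty, PP_zero]
    | insert a s ha ih => rw [Finset.sum_insert ha, Finset.sum_insert ha, PP_add, ih]
  rw [casP, cas]
  refine Eq.trans ?_ (key Finset.univ _).symm
  refine Finset.sum_congr rfl fun i _ => ?_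
  rw [PP_pr4, sum_xp_w (v := v) P.q_kap H.symm E (H.comm (killsQ H hQR (D.he i))),
    sum_xp_w (v := v) P.q_kap H.symm E (H.comm (killsQ H hQR (D.he' i)))]
  rfl

/-- The Casimir class is unique. -/
theorem isCasP_unique {c c' : T.W.H ((X.prod X).prod (X.prod X))} (hc : IsCasP R.sys X π P.uu c)
    (hc' : IsCasP R.sys X π P.uu c') : c = c' := by
  obtain ⟨n, v, d, hd⟩ := exists_homog_basis T.W X
  obtain ⟨N, e, e', D, rfl⟩ := casP_tens (v := v) H hQR hc
  obtain ⟨N', f, f', D', rfl⟩ := casP_tens (v := v) H hQR hc'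
  have hP : ∀ Y ∈ Ann (Cs R.sys v), mt v π * Y = Y * mt v π := fun Y hY =>
    H.commM (fun m F hF => hY m F (fun Z f => ClassPred.sys_le hQR _ (hF Z f)))
  rw [casP_unique hP D D']

section hodge

variable (hRH : ∀ {Z : 𝒱.Obj} {j : ℕ} {c : T.W.H Z}, R.P Z j c → (hodgePred T).P Z j c)

include hRH

open scoped ComplexOrder in
/-- The Casimir class exists. -/
theorem exists_isCasP : ∃ c, IsCasP R.sys X π P.uu c := by
  obtain ⟨n, v, d, hd⟩ := exists_homog_basis T.W X
  have hpos := posDef_of_pol (v := v) P.pol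
  have hMu : IsUnit ((cM v)ᵀ * upM (qM v P.uu)).det :=
    (Matrix.isUnit_iff_isUnit_det _).1 hpos.isUnit
  have hCu : IsUnit (cM v).det := by
    rw [Matrix.det_mul, Matrix.det_transpose] at hMu
    exact isUnit_of_mul_isUnit_left hMu
  have hleQR : ∀ Z, Q.sys.C Z ≤ R.sys.C Z := fun Z => ClassPred.sys_le hQR Z
  have hmono : ∀ Y ∈ Ann (Cs R.sys v), Y ∈ Ann (Cs Q.sys v) := fun Y hY m F hF =>
    hY m F (fun Z f => hleQR Z (hF Z f))
  obtain ⟨N, e, e', D⟩ := exists_DBP (𝓡 := Cs R.sys v) (C := cM v) (C' := (cM v)⁻¹)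
    (q := qM v P.uu) (κ := (qM v P.uu)⁻¹) (P := mt v π) (real_K T) (Matrix.nonsing_inv_mul _ hCu)
    (fun l F hF => cM_fix v (fun Z f => ClassPred.sys_le hRH _ (hF Z f))) P.q_kap hpos
    (fun Z f => hleQR Z (kap_mem hd P.mem P.q_kap Z f)) H.idemM (H.hermM hd)
    (fun Y hY => H.commM (hmono Y hY)) (fun Y hY h => H.injM (hmono Y hY) h)
  obtain ⟨r, w, w', E⟩ := exists_dualC (v := v) P.q_kap H.idem H.symm
  exact ⟨_, N, _, _, r, w, w', DualBP.of_db D, E, rfl⟩

/-- The Casimir class belongs to a closed system. -/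
theorem isCasP_mem (hcl : Closed R X) {c : T.W.H ((X.prod X).prod (X.prod X))}
    (hc : IsCasP R.sys X π P.uu c) : c ∈ R.sys.C ((X.prod X).prod (X.prod X)) := by
  obtain ⟨n, v, d, hd⟩ := exists_homog_basis T.W X
  have hleQR : ∀ Z, Q.sys.C Z ≤ R.sys.C Z := fun Z => ClassPred.sys_le hQR Z
  obtain ⟨N, e, e', D, rfl⟩ := casP_tens (v := v) H hQR hc
  refine mem_pr4.1 ?_
  exact casP_closed (𝓡 := Cs R.sys v) (fun Y hY => H.commM (fun m F hF => hY m F
    (fun Z f => hleQR Z (hF Z f)))) (fun l {F} h => hcl n v l F h)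
    (fun Z f => hleQR Z (kap_mem hd P.mem P.q_kap Z f)) D

open scoped ComplexOrder in
/-- **The Casimir class decides.** -/
theorem casP_crit (hcl : Closed R X) {c : T.W.H ((X.prod X).prod (X.prod X))}
    (hc : IsCasP R.sys X π P.uu c) :
    (∀ A : Module.End T.W.K (T.W.H X), KillsAll Q.sys X A → KillsAll R.sys X A) ↔
      c ∈ Q.sys.C ((X.prod X).prod (X.prod X)) ∧
      ∀ A : Module.End T.W.K (T.W.H X), KillsAll Q.sys X A → A ∈ R.sys.Op X X →
        KillsAll R.sys X A := by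
  obtain ⟨n, v, d, hd⟩ := exists_homog_basis T.W X
  have hpos := posDef_of_pol (v := v) P.pol
  have hMu : IsUnit ((cM v)ᵀ * upM (qM v P.uu)).det :=
    (Matrix.isUnit_iff_isUnit_det _).1 hpos.isUnit
  have hCu : IsUnit (cM v).det := by
    rw [Matrix.det_mul, Matrix.det_transpose] at hMu
    exact isUnit_of_mul_isUnit_left hMu
  have htoLin : ∀ M : Matrix (Fin n) (Fin n) T.W.K, mt v (Matrix.toLin v v M) = M := fun M =>
    LinearMap.toMatrix_toLin v v M
  have hAnn : ∀ (S : Sys T.W) (M : Matrix (Fin n) (Fin n) T.W.K), M ∈ Ann (Cs S v) ↔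
      KillsAll S X (Matrix.toLin v v M) := by
    intro S M
    rw [killsAll_iff (v := v), htoLin]
  have hleQR : ∀ Z, Q.sys.C Z ≤ R.sys.C Z := fun Z => ClassPred.sys_le hQR Z
  obtain ⟨N, e, e', D, rfl⟩ := casP_tens (v := v) H hQR hc
  constructor
  · intro h
    refine ⟨mem_pr4.1 ?_, fun A hA _ => h A hA⟩
    have hEq : Ann (Cs Q.sys v) = Ann (Cs R.sys v) := by
      apply le_antisymm
      · intro M hM
        exact (hAnn _ M).2 (h _ ((hAnn _ M).1 hM))
      · intro M hM m F hF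
        exact hM m F (fun Z f => hleQR Z (hF Z f))
    have D1 : DBP (Ann (Cs Q.sys v)) (mt v π) e e' := by rw [hEq]; exact D
    exact casP_mem_sys (C := cM v) (real_K T) hpos (P.rsys hd)
      (fun m F hF => cM_fix v (P.Cs_le m hF)) P.q_kap (kap_mem hd P.mem P.q_kap) (H.kapM hd)
      (fun Y hY => H.commM hY) D1
  · rintro ⟨h1, h2⟩ A hA
    have h := casP_larsen (𝓡 := Cs R.sys v) (C := cM v) (C' := (cM v)⁻¹) (q := qM v P.uu)
      (κ := (qM v P.uu)⁻¹) (P := mt v π) (real_K T)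
      (Matrix.nonsing_inv_mul _ hCu)
      (fun l F hF => cM_fix v (fun Z f => ClassPred.sys_le hRH _ (hF Z f))) P.q_kap hpos
      (fun l {F} h => hcl n v l F h) (𝒜 := Cs Q.sys v)
      (fun l F hF Z f => hleQR Z (hF Z f)) (kap_mem hd P.mem P.q_kap) H.idemM (H.hermM hd)
      (fun Y hY => H.commM hY) (fun Y hY h => H.injM hY h) D (mem_pr4.2 h1)
      (by
        intro Y hY hYz
        rw [hAnn]
        refine h2 _ ((hAnn Q.sys Y).1 hY) ?_
        rw [← P.op_iff hleQR hd, htoLin]; exact hYz)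
    exact (killsAll_iff (v := v)).2 (h ((killsAll_iff (v := v)).1 hA))

/-- If the classes of the larger system of degree `2 i` on `X × X` belong to the smaller system,
the Casimir class alone decides. -/
theorem casP_square (hcl : Closed R X) {c : T.W.H ((X.prod X).prod (X.prod X))}
    (hc : IsCasP R.sys X π P.uu c) {i : ℕ} (hdeg : ∀ x, π x ∈ T.W.gr X i)
    (h2 : ∀ c, R.P (X.prod X) i c → Q.P (X.prod X) i c)
    (hsk : ∀ φ ∈ Q.sys.Op X X, π * φ = φ → φ * π = φ →
      (∀ ψ ∈ Q.sys.Op X X, π * ψ = ψ → ψ * π = ψ → φ * ψ = ψ * φ) →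
      (∀ x y, T.W.tr X (φ x * P.uu y) = -T.W.tr X (x * P.uu (φ y))) → φ = 0) :
    (∀ A : Module.End T.W.K (T.W.H X), KillsAll Q.sys X A → KillsAll R.sys X A) ↔
      c ∈ Q.sys.C ((X.prod X).prod (X.prod X)) := by
  have := charZero_K T
  refine ⟨fun h => ((casP_crit H hQR hRH hcl hc).1 h).1, fun h =>
    (casP_crit H hQR hRH hcl hc).2 ⟨h, fun A hA h1 => ?_⟩⟩
  obtain ⟨n, v, d, hd⟩ := exists_homog_basis T.W X
  have hleQR : ∀ Z, Q.sys.C Z ≤ R.sys.C Z := fun Z => ClassPred.sys_le hQR Z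
  obtain ⟨r, w, w', E⟩ := exists_dualC (v := v) P.q_kap H.idem H.symm
  have hcomm := H.comm hA
  have hfun : ∀ {f g : Module.End T.W.K (T.W.H X)}, f = g → ∀ x, f x = g x := fun h x => by rw [h]
  -- the class of the operator
  have hπR : π ∈ R.sys.Op X X := by
    obtain ⟨z, hz, h3⟩ := Sys.mem_Op.1 H.op
    exact Sys.mem_Op.2 ⟨z, hleQR _ hz, h3⟩
  have hφR : π * A ∈ R.sys.Op X X := Sys.Op.comp hπR h1
  have hz := (P.op_iff hleQR hd (π * A)).2 hφR
  have hz1 : cM2 v (mt v (π * A) * (qM v P.uu)⁻¹) ∈ R.sys.C (X.prod X) := mem_Cs_succ.1 hz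
  have hz2 : cM2 v (mt v (π * A) * (qM v P.uu)⁻¹) ∈ T.W.gr (X.prod X) (2 * i) := by
    rw [mt_mul, ← sum_xp_w (v := v) P.q_kap H.symm E hcomm]
    refine Submodule.sum_mem _ fun a _ => ?_
    have e1 : A (w a) ∈ T.W.gr X i := by
      rw [← (E.mem a).1]
      have : A (π (w a)) = π (A (w a)) := (hfun hcomm (w a)).symm
      rw [this]
      exact hdeg _
    have e2 : w' a ∈ T.W.gr X i := by rw [← (E.mem a).2]; exact hdeg _
    rw [two_mul, xp]
    exact T.W.mul_mem (T.W.map_mem _ e1) (T.W.map_mem _ e2)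
  have hz3 : R.P (X.prod X) i (cM2 v (mt v (π * A) * (qM v P.uu)⁻¹)) := by
    have h3 := ClassPred.sp_proj (Q := R) hz1 i
    rwa [proj_same _ hz2] at h3
  have hz4 : t2 (mt v (π * A) * (qM v P.uu)⁻¹) ∈ Cs Q.sys v 2 :=
    mem_Cs_succ.2 (ClassPred.sp_of (Q := Q) (h2 _ hz3))
  have hφ : π * A ∈ Q.sys.Op X X := (P.op_iff (R := Q.sys) (fun _ => le_rfl) hd (π * A)).1 hz4
  have h0 : π * A = 0 := by
    refine hsk _ hφ (by rw [← mul_assoc, H.idem]) ?_ ?_ ?_
    · rw [mul_assoc, ← hcomm, ← mul_assoc, H.idem]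
    · intro ψ hψ hψ1 hψ2
      calc π * A * ψ = A * (π * ψ) := by rw [hcomm, mul_assoc]
        _ = A * ψ := by rw [hψ1]
        _ = ψ * A := P.nd.comm_op hA hψ
        _ = ψ * π * A := by rw [hψ2]
        _ = ψ * (π * A) := mul_assoc _ _ _
    · intro x y
      have e1 : (π * A) x = π (A x) := rfl
      have e2 : P.uu ((π * A) y) = A (P.uu (π y)) := by
        have e3 : (π * A) y = A (π y) := hfun hcomm y
        rw [e3]
        exact (hfun (P.nd.comm_op hA P.mem) (π y)).symm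
      rw [e1, e2, H.symm]
      exact P.nd.tr_skew hA _ _
  have h00 : A = 0 := H.inj A hA h0
  intro m c hc
  have h10 : (0 : Module.End T.W.K (T.W.H (pw X m))) =
      derOp (0 : Module.End T.W.K (T.W.H X)) m := by
    refine IsDer.eq ?_
    intro x
    rw [LinearMap.zero_apply]
    refine (Finset.sum_eq_zero fun i _ => ?_).symm
    exact ten_zero_of (i := i) (Function.update_self i _ x)
  rw [h00, ← h10, LinearMap.zero_apply]

end hodge

end main

end Pool.Agent.Q67.TG
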