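import Pool.Agent.Q67.TK.LarsenG
import Pool.Agent.Q67.TK.Index
import Pool.Agent.Q67.TK.Transport
import Pool.Agent.Q67.TK.Ideal

/-!
# The Casimir tensor of the annihilator of a system of tensors
-/

set_option autoImplicit false
set_option linter.unusedSectionVars false

open Matrix Finset

namespace Pool.Agent.Q67.TB

open Pool.Agent.Q67.TK

variable {B : Type} [Fintype B] [DecidableEq B] {K : Type*} [Field K] [Algebra K ℂ]

/-- Dual bases of a space of matrices, for the trace form. -/
structure DB (V : Submodule K (Matrix B B K)) {N : ℕ} (e e' : Fin N → Matrix B B K) : Prop where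
  he : ∀ i, e i ∈ V
  he' : ∀ i, e' i ∈ V
  dual : ∀ i j, (e i * e' j).trace = if i = j then 1 else 0
  exp : ∀ Y ∈ V, Y = ∑ i, (Y * e' i).trace • e i

namespace DB

variable {V : Submodule K (Matrix B B K)} {N : ℕ} {e e' : Fin N → Matrix B B K} (D : DB V e e')

include D

lemma exp' : ∀ Y ∈ V, Y = ∑ i, (Y * e i).trace • e' i := by
  intro Y hY
  -- the difference is orthogonal to all `e i`, and lies in `V`
  set Z := Y - ∑ i, (Y * e i).trace • e' i with hZ
  have hZV : Z ∈ V := Submodule.sub_mem _ hY (Submodule.sum_mem _ fun i _ =>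
    Submodule.smul_mem _ _ (D.he' i))
  have h1 : ∀ j, (Z * e j).trace = 0 := by
    intro j
    rw [hZ, Matrix.sub_mul, Matrix.trace_sub, Finset.sum_mul, Matrix.trace_sum]
    rw [Finset.sum_eq_single j]
    · rw [Matrix.smul_mul, Matrix.trace_smul, Matrix.trace_mul_comm (e' j), D.dual, if_pos rfl,
        smul_eq_mul, mul_one, sub_self]
    · intro i _ hij
      rw [Matrix.smul_mul, Matrix.trace_smul, Matrix.trace_mul_comm (e' i), D.dual,
        if_neg (Ne.symm hij), smul_zero]
    · intro h; exact absurd (Finset.mem_univ _) h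
  have h2 : ∀ Y' ∈ V, (Z * Y').trace = 0 := by
    intro Y' hY'
    rw [D.exp Y' hY', Finset.mul_sum, Matrix.trace_sum]
    refine Finset.sum_eq_zero fun i _ => ?_
    rw [Matrix.mul_smul, Matrix.trace_smul, h1, smul_zero]
  have h3 : Z = 0 := by
    rw [D.exp Z hZV]
    refine Finset.sum_eq_zero fun i _ => ?_
    rw [h2 _ (D.he' i), zero_smul]
  exact sub_eq_zero.1 h3

lemma ind' : LinearIndependent K e' := by
  rw [Fintype.linearIndependent_iff]
  intro c hc i
  have h1 := congrArg (fun M => (e i * M).trace) hc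
  simp only [Finset.mul_sum, Matrix.trace_sum, Matrix.mul_smul, Matrix.trace_smul, D.dual,
    Matrix.trace_zero, smul_eq_mul, mul_ite, mul_one, mul_zero] at h1
  rw [Finset.sum_ite_eq] at h1
  simpa using h1

end DB

lemma upM_trace (A : Matrix B B K) : (upM A).trace = algebraMap K ℂ A.trace := by
  simp only [Matrix.trace, Matrix.diag_apply, upM_apply, map_sum]

lemma upM_smul' (c : K) (A : Matrix B B K) : upM (c • A) = algebraMap K ℂ c • upM A := by
  ext i j
  simp only [upM_apply, Matrix.smul_apply, smul_eq_mul, map_mul]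

lemma up_tp {m n : ℕ} (F : (Fin m → B) → K) (G : (Fin n → B) → K) :
    up (tp F G) = tp (up F) (up G) := by
  funext I
  simp only [tp, up, map_mul]

lemma up_t2 (Y : Matrix B B K) : up (t2 Y) = t2 (upM Y) := rfl

/-- The Casimir tensor with complex coefficients. -/
lemma up_cas {N : ℕ} (e e' : Fin N → Matrix B B K) (κ : Matrix B B K) :
    up (cas e e' κ) = ∑ i, tp (t2 (upM (e i) * upM κ)) (t2 (upM (e' i) * upM κ)) := by
  rw [cas, up_sum]
  refine Finset.sum_congr rfl fun i _ => ?_
  rw [up_tp, up_t2, up_t2, upM_mul, upM_mul]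

section cx

variable {𝒜 : ∀ n, Submodule K ((Fin n → B) → K)} {N : ℕ} {e e' : Fin N → Matrix B B K}
  (D : DB (Ann 𝒜) e e')

/-- The expansion of the complex matrices which kill the tensors of the system. -/
lemma expC (D : DB (Ann 𝒜) e e') {X : Matrix B B ℂ} (hX : Kills 𝒜 X) :
    X = ∑ i, (X * upM (e' i)).trace • upM (e i) := by
  have key : ∀ l : ℂ →ₗ[K] K,
      dnM l X = dnM l (∑ i, (X * upM (e' i)).trace • upM (e i)) := by
    intro l
    have h1 : dnM l X ∈ Ann 𝒜 := dnM_mem_Ann hX l
    rw [D.exp _ h1]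
    ext a b
    rw [dnM_apply, Matrix.sum_apply, Matrix.sum_apply, map_sum]
    refine Finset.sum_congr rfl fun i _ => ?_
    rw [Matrix.smul_apply, Matrix.smul_apply, upM_apply, smul_eq_mul, smul_eq_mul, l_mul]
    congr 1
    simp only [Matrix.trace, Matrix.diag_apply, Matrix.mul_apply, map_sum, dnM_apply, upM_apply,
      l_mul]
  ext a b
  by_contra hne
  obtain ⟨l, hl⟩ := exists_functional (K := K) (sub_ne_zero.2 hne)
  apply hl
  rw [map_sub]
  exact sub_eq_zero.2 (congrFun (congrFun (key l) a) b)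

lemma DB.swap (D : DB (Ann 𝒜) e e') : DB (Ann 𝒜) e' e :=
  ⟨D.he', D.he, fun i j => by
    rw [Matrix.trace_mul_comm, D.dual]
    by_cases h : i = j
    · rw [if_pos h, if_pos h.symm]
    · rw [if_neg h, if_neg (Ne.symm h)], D.exp'⟩

lemma kills_upM {Y : Matrix B B K} (hY : Y ∈ Ann 𝒜) : Kills 𝒜 (upM Y) := by
  intro n F hF
  rw [← upM_dM, ← up_mulVec, hY n F hF, up_zero]

/-- The Casimir tensor is fixed by the matrices which fix the tensors of the system. -/
theorem cas_fixed (D : DB (Ann 𝒜) e e') {w w' : Matrix B B ℂ} (hw : w' * w = 1)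
    (hfix : ∀ n, ∀ F ∈ 𝒜 n, pM n w *ᵥ up F = up F) {κ : Matrix B B K} (hκ : t2 κ ∈ 𝒜 2) :
    pM (2 + 2) w *ᵥ up (cas e e' κ) = up (cas e e' κ) := by
  have hw' : w * w' = 1 := mul_eq_one_comm.1 hw
  have hfix' : ∀ n, ∀ F ∈ 𝒜 n, pM n w' *ᵥ up F = up F := by
    intro n F hF
    conv_lhs => rw [← hfix n F hF]
    rw [Matrix.mulVec_mulVec, ← pM_mul, hw, pM_one, Matrix.one_mulVec]
  -- conjugation preserves the matrices which kill the system
  have hconj : ∀ {g g' : Matrix B B ℂ}, g' * g = 1 → g * g' = 1 →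
      (∀ n, ∀ F ∈ 𝒜 n, pM n g *ᵥ up F = up F) → ∀ {X : Matrix B B ℂ}, Kills 𝒜 X →
      Kills 𝒜 (g * X * g') := by
    intro g g' hg hg' hgf X hX n F hF
    have h1 : g * X = (g * X * g') * g := by
      rw [Matrix.mul_assoc (g * X), hg, Matrix.mul_one]
    conv_lhs => rw [← hgf n F hF]
    rw [Matrix.mulVec_mulVec, ← dM_conj h1, ← Matrix.mulVec_mulVec, hX n F hF, Matrix.mulVec_zero]
  set κ' : Matrix B B ℂ := upM κ with hκ'
  have hκw : w * κ' * wᵀ = κ' := by
    have h1 := hfix 2 _ hκ
    rw [up_t2, pM_t2] at h1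
    exact t2_injective h1
  have hterm : ∀ Y : Matrix B B ℂ, w * (Y * κ') * wᵀ = (w * Y * w') * κ' := by
    intro Y
    calc w * (Y * κ') * wᵀ = w * Y * (w' * w) * κ' * wᵀ := by
          rw [hw, Matrix.mul_one, ← Matrix.mul_assoc]
      _ = (w * Y * w') * (w * κ' * wᵀ) := by simp only [Matrix.mul_assoc]
      _ = (w * Y * w') * κ' := by rw [hκw]
  rw [up_cas, Matrix.mulVec_sum]
  have h1 : ∀ i, pM (2 + 2) w *ᵥ tp (t2 (upM (e i) * κ')) (t2 (upM (e' i) * κ')) =
      ∑ j, ∑ k, (((w * upM (e i) * w') * upM (e' j)).trace *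
        ((w * upM (e' i) * w') * upM (e k)).trace) •
        tp (t2 (upM (e j) * κ')) (t2 (upM (e' k) * κ')) := by
    intro i
    rw [pM_tp, pM_t2, pM_t2, hterm, hterm]
    conv_lhs => rw [expC D (hconj hw hw' hfix (kills_upM (D.he i))),
      expC D.swap (hconj hw hw' hfix (kills_upM (D.he' i)))]
    rw [Finset.sum_mul, Finset.sum_mul]
    have e1 : ∀ c : Fin N → ℂ, ∀ Z : Fin N → Matrix B B ℂ,
        t2 (∑ j, (c j • Z j) * κ') = ∑ j, c j • t2 (Z j * κ') := by
      intro c Z
      rw [t2_sum]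
      refine Finset.sum_congr rfl fun j _ => ?_
      rw [Matrix.smul_mul]
      rfl
    rw [e1, e1, tp_sum_left]
    refine Finset.sum_congr rfl fun j _ => ?_
    rw [tp_sum_right]
    refine Finset.sum_congr rfl fun k _ => ?_
    rw [tp_smul_left, tp_smul_right, smul_smul]
  have h2 : ∀ j k, ∑ i, ((w * upM (e i) * w') * upM (e' j)).trace *
      ((w * upM (e' i) * w') * upM (e k)).trace = if k = j then 1 else 0 := by
    intro j k
    have hR := hconj hw' hw hfix' (kills_upM (D.he k))
    have h3 := congrArg (fun M => (M * (w' * upM (e' j) * w)).trace) (expC D hR)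
    simp only [Finset.sum_mul, Matrix.trace_sum, Matrix.smul_mul, Matrix.trace_smul,
      smul_eq_mul] at h3
    have h4 : ((w' * upM (e k) * w) * (w' * upM (e' j) * w)).trace = if k = j then 1 else 0 := by
      calc ((w' * upM (e k) * w) * (w' * upM (e' j) * w)).trace
          = (w' * (upM (e k) * (w * w') * upM (e' j)) * w).trace := by
            simp only [Matrix.mul_assoc]
        _ = (upM (e k) * upM (e' j)).trace := by
            rw [hw', Matrix.mul_one, Matrix.trace_mul_comm, ← Matrix.mul_assoc, hw',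
              Matrix.one_mul]
        _ = if k = j then 1 else 0 := by
            rw [← upM_mul, upM_trace, D.dual]
            split_ifs <;> simp
    rw [← h4, h3]
    refine Finset.sum_congr rfl fun i _ => ?_
    rw [mul_comm]
    congr 1
    · calc ((w * upM (e' i) * w') * upM (e k)).trace
          = (w * (upM (e' i) * (w' * upM (e k)))).trace := by simp only [Matrix.mul_assoc]
        _ = ((w' * upM (e k) * w) * upM (e' i)).trace := by
            rw [Matrix.trace_mul_comm, Matrix.mul_assoc, Matrix.trace_mul_comm]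
    · calc ((w * upM (e i) * w') * upM (e' j)).trace
          = (w * (upM (e i) * (w' * upM (e' j)))).trace := by simp only [Matrix.mul_assoc]
        _ = (upM (e i) * (w' * upM (e' j) * w)).trace := by
            rw [Matrix.trace_mul_comm]
            simp only [Matrix.mul_assoc]
  rw [Finset.sum_congr rfl fun i _ => h1 i, Finset.sum_comm]
  refine Finset.sum_congr rfl fun j _ => ?_
  rw [Finset.sum_comm]
  have h5 : ∀ k, (∑ i, (((w * upM (e i) * w') * upM (e' j)).trace *
      ((w * upM (e' i) * w') * upM (e k)).trace) •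
      tp (t2 (upM (e j) * κ')) (t2 (upM (e' k) * κ'))) =
      (if k = j then (1 : ℂ) else 0) • tp (t2 (upM (e j) * κ')) (t2 (upM (e' k) * κ')) := by
    intro k
    rw [← h2 j k, Finset.sum_smul]
  rw [Finset.sum_congr rfl fun k _ => h5 k]
  simp only [ite_smul, one_smul, zero_smul]
  rw [Finset.sum_ite_eq']
  simp [hκ']

end cx

/-- Descent of the membership in a space from the complex numbers. -/
lemma mem_of_up {S : Type*} {V : Submodule K (S → K)} {F : S → K} (h : up F ∈ upS V) : F ∈ V := by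
  obtain ⟨l, hl⟩ := exists_functional (K := K) (one_ne_zero (α := ℂ))
  have key : ∀ y ∈ upS V, dn l y ∈ V := by
    intro y hy
    unfold upS at hy
    suffices H : ∀ y ∈ Submodule.span ℂ (up '' (V : Set (S → K))), ∀ l : ℂ →ₗ[K] K, dn l y ∈ V from
      H y hy l
    clear hy y
    intro y hy
    induction hy using Submodule.span_induction with
    | mem y hy =>
      obtain ⟨G, hG, rfl⟩ := hy
      intro l
      have h1 : dn l (up G) = l 1 • G := by
        funext I
        change l (algebraMap K ℂ (G I)) = l 1 * G I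
        rw [← l_mul, one_mul]
      rw [h1]
      exact Submodule.smul_mem _ _ hG
    | zero =>
      intro l
      have h1 : dn l (0 : S → ℂ) = 0 := funext fun I => map_zero l
      rw [h1]; exact Submodule.zero_mem _
    | add a b _ _ ha hb =>
      intro l
      have h1 : dn l (a + b) = dn l a + dn l b := funext fun I => map_add l _ _
      rw [h1]; exact Submodule.add_mem _ (ha l) (hb l)
    | smul c a _ ha =>
      intro l
      have h1 : dn l (c • a) = dn (l ∘ₗ LinearMap.mulLeft K c) a := rfl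
      rw [h1]
      exact ha _
  have h1 := key _ h
  have h2 : dn l (up F) = l 1 • F := by
    funext I
    change l (algebraMap K ℂ (F I)) = l 1 * F I
    rw [← l_mul, one_mul]
  rw [h2] at h1
  have h3 := Submodule.smul_mem V (l 1)⁻¹ h1
  rwa [smul_smul, inv_mul_cancel₀ hl, one_smul] at h3

open scoped ComplexOrder in
/-- **The Casimir tensor of the annihilator of a polarised system belongs to the system.** -/
theorem cas_mem_sys {C : Matrix B B ℂ} {q κ : Matrix B B K}
    (hK : ∀ r : K, star (algebraMap K ℂ r) = algebraMap K ℂ r) (hpos : (Cᵀ * upM q).PosDef)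
    (𝒜 : RSys B K q) (hfix : ∀ n, ∀ F ∈ 𝒜.C n, pM n C *ᵥ up F = up F)
    (hκ : t2 κ ∈ 𝒜.C 2) {N : ℕ} {e e' : Fin N → Matrix B B K} (D : DB (Ann 𝒜.C) e e') :
    cas e e' κ ∈ 𝒜.C (2 + 2) := by
  obtain ⟨g, hg⟩ := exists_sqrt hpos
  have hMu : IsUnit (Cᵀ * upM q).det := (Matrix.isUnit_iff_isUnit_det _).1 hpos.isUnit
  have hgu : IsUnit g.det := by
    have h : (Cᵀ * upM q).det = star g.det * g.det := by
      rw [hg, Matrix.det_mul, Matrix.det_conjTranspose]
    rw [h] at hMu
    exact isUnit_of_mul_isUnit_right hMu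
  have hgg : g * g⁻¹ = 1 := Matrix.mul_nonsing_inv _ hgu
  have hgg' : g⁻¹ * g = 1 := Matrix.nonsing_inv_mul _ hgu
  set 𝒯 := toT 𝒜 hK hg hfix with h𝒯
  have hmem : ∀ n, ∀ F ∈ 𝒜.C n, pM n g *ᵥ up F ∈ 𝒯.C n := fun n F hF => ⟨_, up_mem hF, rfl⟩
  have h1 : pM (2 + 2) g *ᵥ up (cas e e' κ) ∈ 𝒯.C (2 + 2) := by
    rw [TSys.mem_C_iff]
    intro u hu
    set w : Matrix B B ℂ := g⁻¹ * (u : Matrix B B ℂ) * g with hw
    set w' : Matrix B B ℂ := g⁻¹ * (u : Matrix B B ℂ)ᴴ * g with hw'
    have huu : (u : Matrix B B ℂ)ᴴ * (u : Matrix B B ℂ) = 1 := by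
      have := (Unitary.mem_iff.1 u.2).1
      rwa [Matrix.star_eq_conjTranspose] at this
    have hww : w' * w = 1 := by
      calc w' * w = g⁻¹ * (u : Matrix B B ℂ)ᴴ * (g * g⁻¹) * (u : Matrix B B ℂ) * g := by
            rw [hw, hw']; simp only [Matrix.mul_assoc]
        _ = 1 := by
            rw [hgg, Matrix.mul_one, Matrix.mul_assoc g⁻¹, huu, Matrix.mul_one, hgg']
    have hgw : g * w = (u : Matrix B B ℂ) * g := by
      rw [hw, ← Matrix.mul_assoc, ← Matrix.mul_assoc, hgg, Matrix.one_mul]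
    have hwfix : ∀ n, ∀ F ∈ 𝒜.C n, pM n w *ᵥ up F = up F := by
      intro n F hF
      apply pM_mulVec_injective hgg' n
      change pM n g *ᵥ (pM n w *ᵥ up F) = pM n g *ᵥ up F
      rw [Matrix.mulVec_mulVec, ← pM_mul, hgw, pM_mul, ← Matrix.mulVec_mulVec]
      have h2 := hu n _ (hmem n F hF)
      rwa [rho_apply] at h2
    have h3 := cas_fixed D hww hwfix hκ
    rw [rho_apply, Matrix.mulVec_mulVec, ← pM_mul, ← hgw, pM_mul, ← Matrix.mulVec_mulVec, h3]
  obtain ⟨y, hy, hy'⟩ := h1
  have h2 : y = up (cas e e' κ) := pM_mulVec_injective hgg' (2 + 2) hy'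
  rw [h2] at hy
  exact mem_of_up hy

end Pool.Agent.Q67.TB
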